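import Mathlib

/-! MP_65b575_al, project MO: groups with few conjugacy classes or few subgroups: statements -/

set_option autoImplicit false
set_option maxHeartbeats 400000

namespace Pool.Agent.L0h77.MO

open Subgroup

/-- (3) `G` is not cyclic, and every proper subgroup of `G` is cyclic. -/
def Type3 (G : Type) [Group G] : Prop := ¬ IsCyclic G ∧ ∀ H : Subgroup G, H ≠ ⊤ → IsCyclic H

/-- (4) There is a prime `p` such that every nontrivial proper subgroup is cyclic of order `p`. -/
def Type4 (G : Type) [Group G] : Prop :=
  ∃ p : ℕ, p.Prime ∧ ∀ H : Subgroup G, H ≠ ⊥ → H ≠ ⊤ → IsCyclic H ∧ Nat.card H = p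

/-- RAT: a chain of roots gives a copy of the rational numbers. Sketch: choose `b 0 = a`,
`b (i+1) ^ k i = b i` with `i + 1 ∣ k i`, `N i = ∏ l < i, k l`, so `b i ^ N i = a` and `i ! ∣ N i`;
map `q` to `b i ^ (q * N i)` for any `i` with `q.den ∣ N i`, for example `i = q.den`. -/
def S_RAT : Prop := ∀ (G : Type) [Group G] (P : G → Prop),
  (∀ b, P b → ∀ m : ℕ, 0 < m → ∃ (b' : G) (k : ℕ), P b' ∧ 0 < k ∧ m ∣ k ∧ b' ^ k = b) →
  ∀ a, P a → (∀ n : ℕ, 0 < n → a ^ n ≠ 1) →
    ∃ f : Multiplicative ℚ →* G, Function.Injective f ∧ f (Multiplicative.ofAdd 1) = a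

/-- FRM: a free submonoid. Sketch: `0 ↦ s`, `1 ↦ a * s`; the image of a word of length `n` is
`a ^ (∑ ε i * k ^ i) * s ^ n`; if `n > n'` then a positive power of `s` is a power of `a`, hence commutes
with `a`, against `s ^ d * a * s ^ (-d) = a ^ (k ^ d)`. -/
def S_FRM : Prop := ∀ (G : Type) [Group G] (a s : G) (k : ℕ), 2 ≤ k →
  (∀ n : ℕ, 0 < n → a ^ n ≠ 1) → s * a * s⁻¹ = a ^ k →
    Function.Injective (FreeMonoid.lift ![s, a * s])

/-- FIC: a subgroup of finite index in a group with finitely many conjugacy classes has finitely many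
conjugacy classes. -/
def S_FIC : Prop := ∀ (G : Type) [Group G], Finite (ConjClasses G) → ∀ H : Subgroup G,
  H.FiniteIndex → Finite (ConjClasses H)

/-- CYZ: Sketch: `G` has an index two subgroup `H` containing the kernel `K` of a homomorphism onto `ℤ`;
`H` is cyclic and infinite, its image is infinite, so `K = 1` and `G` is isomorphic to `ℤ`. (A finitely
generated commutative group which is infinite has a surjective homomorphism to `ℤ`.) -/
def S_CYZ : Prop := ∀ (G : Type) [Group G] [Group.FG G], (∀ H : Subgroup G, H ≠ ⊤ → IsCyclic H) →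
  Infinite (Abelianization G) → IsCyclic G

/-- CEN: Sketch: let `N` be a proper normal subgroup, so cyclic, `C` its centralizer. If `C ≠ ⊤` then
`C` is cyclic, and `commutator G ≤ C` since the automorphism group of a cyclic group is commutative. By CYZ
the abelianization is finite, so the commutator subgroup `A` is infinite cyclic, generated by `a`. If
`a` is central then the centre has finite index and `commutator G` is finite (Schur:
`Subgroup.card_commutator_dvd_index_center_pow` and friends). Otherwise `g * a * g⁻¹ = a⁻¹` for some `g`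
(`zpow` automorphisms of an infinite cyclic group), and the subgroup generated by `g` and `a ^ 2` is not
commutative, so it is `⊤`; hence `a = g ^ i * a ^ (2 * j)`, and `g` commutes with `a ^ (1 - 2 * j)`, a
contradiction. -/
def S_CEN : Prop := ∀ (G : Type) [Group G] [Group.FG G] [Infinite G], Type3 G →
  ∀ N : Subgroup G, N.Normal → N ≠ ⊤ → N ≤ center G

end Pool.Agent.L0h77.MO
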