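import Pool.Agent.L0h77.MO.Rec
import Pool.Agent.L0h77.MO.Stm

/-! MP_65b575_al, project MO: decision problems for finitely presented groups of type (3) -/

set_option autoImplicit false
set_option maxHeartbeats 400000

namespace Pool.Agent.L0h77.MO

open Subgroup

section
variable {n : ℕ} {G : Type} [Group G]

theorem exists_word (φ : FreeGroup (Fin n) →* G) (hφ : Function.Surjective φ) (g : G) :
    ∃ v : Wd n, φ (FreeGroup.mk v) = g := by
  obtain ⟨x, rfl⟩ := hφ g
  exact ⟨x.toWord, by rw [FreeGroup.mk_toWord]⟩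

theorem val_pz (φ : FreeGroup (Fin n) →* G) (v : Wd n) (x : ℕ × Bool) :
    φ (FreeGroup.mk (pz v x)) = φ (FreeGroup.mk v) ^ iz x := by
  rw [mk_pz, map_zpow]

theorem val_app (φ : FreeGroup (Fin n) →* G) (v w : Wd n) :
    φ (FreeGroup.mk (v ++ w)) = φ (FreeGroup.mk v) * φ (FreeGroup.mk w) := by
  rw [← FreeGroup.mul_mk, map_mul]

theorem iz_dvd (N : ℕ) (x : ℕ × Bool) : (N : ℤ) ∣ iz x ↔ x.1 % N = 0 := by
  obtain ⟨j, b⟩ := x
  rw [← Nat.dvd_iff_mod_eq_zero]
  cases b
  · show (N : ℤ) ∣ -(j : ℤ) ↔ N ∣ j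
    rw [dvd_neg, Int.natCast_dvd_natCast]
  · show (N : ℤ) ∣ (j : ℤ) ↔ N ∣ j
    rw [Int.natCast_dvd_natCast]

/-- finitely presented groups with cyclic centre and simple central quotient have a solvable word
problem -/
theorem wp_three (hRE : S_RE) (hK : S_KUZ) (φ : FreeGroup (Fin n) →* G)
    (hφ : Function.Surjective φ) (hf : φ.ker.IsFinitelyNormallyGenerated)
    (hc : IsCyclic (center G)) (hs : IsSimpleGroup (G ⧸ center G)) :
    ComputablePred fun w : Wd n => φ (FreeGroup.mk w) = 1 := by
  rw [ComputablePred.computable_iff_re_compl_re']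
  refine ⟨wp_re hRE n G φ hφ hf, ?_⟩
  obtain ⟨⟨z, hz⟩, hgen⟩ := hc.exists_generator
  have hgen' : ∀ x ∈ center G, ∃ t : ℤ, z ^ t = x := fun x hx => by
    obtain ⟨t, ht⟩ := mem_zpowers_iff.1 (hgen ⟨x, hx⟩)
    exact ⟨t, congrArg Subtype.val ht⟩
  have hZ : (center G).IsFinitelyNormallyGenerated := by
    refine ⟨{z}, Set.finite_singleton z, le_antisymm ?_ fun x hx => ?_⟩
    · refine normalClosure_le_normal ?_
      rintro _ rfl
      exact hz
    · obtain ⟨t, rfl⟩ := hgen' x hx
      exact zpow_mem (subset_normalClosure (Set.mem_singleton z)) t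
  obtain ⟨v, hv⟩ := exists_word φ hφ z
  set ψ : FreeGroup (Fin n) →* G ⧸ center G := (QuotientGroup.mk' (center G)).comp φ with hψ
  have hψk : ψ.ker.IsFinitelyNormallyGenerated := by
    rw [hψ, ← MonoidHom.comap_ker, QuotientGroup.ker_mk']
    exact hZ.comap hφ hf
  have h1 := hK n _ ψ ((QuotientGroup.mk'_surjective _).comp hφ) hψk hs
  have h2 : REPred fun w : Wd n => ¬ ψ (FreeGroup.mk w) = 1 := h1.not.to_re
  have h3 : REPred fun p : Wd n × (ℕ × Bool) =>
      φ (FreeGroup.mk (p.1 ++ pz v p.2)) = 1 := by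
    have h4 : Primrec fun p : Wd n × (ℕ × Bool) => p.1 ++ pz v p.2 :=
      Primrec.list_append.comp Primrec.fst ((primrec_pz n).comp (Primrec.const v) Primrec.snd)
    exact re_comp (wp_re hRE n G φ hφ hf) h4.to_comp
  have h5 : REPred fun p : Wd n × (ℕ × Bool) => ¬ (p.2.1 % orderOf z = 0) := by
    have h6 : PrimrecPred fun p : Wd n × (ℕ × Bool) => p.2.1 % orderOf z = 0 :=
      Primrec.eq.comp (Primrec.nat_mod.comp (Primrec.fst.comp Primrec.snd)
        (Primrec.const (orderOf z))) (Primrec.const 0)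
    exact h6.not.computablePred.to_re
  refine (re_or h2 (re_exists (re_and h3 h5))).of_eq fun w => ?_
  constructor
  · rintro (h | ⟨x, hx1, hx2⟩)
    · intro hw
      apply h
      rw [hψ, MonoidHom.comp_apply, hw, map_one]
    · intro hw
      apply hx2
      have hx1' : φ (FreeGroup.mk (w ++ pz v x)) = 1 := hx1
      rw [val_app, hw, one_mul, val_pz, hv] at hx1'
      exact (iz_dvd _ x).1 (orderOf_dvd_iff_zpow_eq_one.2 hx1')
  · intro hw
    by_cases hwZ : φ (FreeGroup.mk w) ∈ center G
    · right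
      obtain ⟨t, ht⟩ := hgen' _ hwZ
      obtain ⟨x, hx⟩ := iz_surj (-t)
      refine ⟨x, ?_, fun hx0 => ?_⟩
      · show φ (FreeGroup.mk (w ++ pz v x)) = 1
        rw [val_app, val_pz, hv, hx, ← ht, ← zpow_add, add_neg_cancel, zpow_zero]
      · have h6 : z ^ iz x = 1 := orderOf_dvd_iff_zpow_eq_one.1 ((iz_dvd _ x).2 hx0)
        rw [hx, zpow_neg, ht, inv_eq_one] at h6
        exact hw h6
    · left
      intro h
      apply hwZ
      exact (QuotientGroup.eq_one_iff _).1 h

/-- a product of the two words and their inverses -/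
def sub2 {n : ℕ} (p : Wd n × Wd n) (u : List (Bool × Bool)) : Wd n :=
  u.flatMap fun x => bif x.2 then (bif x.1 then p.1 else p.2)
    else FreeGroup.invRev (bif x.1 then p.1 else p.2)

theorem primrec_sub2 (n : ℕ) : Primrec₂ (sub2 (n := n)) := by
  have h1 : Primrec fun x : ((Wd n × Wd n) × List (Bool × Bool)) × (Bool × Bool) =>
      (bif x.2.1 then x.1.1.1 else x.1.1.2) :=
    Primrec.cond (Primrec.fst.comp Primrec.snd)
      (Primrec.fst.comp (Primrec.fst.comp Primrec.fst))
      (Primrec.snd.comp (Primrec.fst.comp Primrec.fst))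
  have h2 : Primrec fun x : ((Wd n × Wd n) × List (Bool × Bool)) × (Bool × Bool) =>
      bif x.2.2 then (bif x.2.1 then x.1.1.1 else x.1.1.2)
        else FreeGroup.invRev (bif x.2.1 then x.1.1.1 else x.1.1.2) :=
    Primrec.cond (Primrec.snd.comp Primrec.snd) h1 ((L0h81.MO.primrec_inv n).comp h1)
  have h : Primrec fun x : (Wd n × Wd n) × List (Bool × Bool) => x.2.flatMap fun y =>
      bif y.2 then (bif y.1 then x.1.1 else x.1.2)
        else FreeGroup.invRev (bif y.1 then x.1.1 else x.1.2) :=
    Primrec.list_flatMap Primrec.snd h2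
  exact h

theorem sub2_append (p : Wd n × Wd n) (u u' : List (Bool × Bool)) :
    sub2 p (u ++ u') = sub2 p u ++ sub2 p u' := by
  unfold sub2
  rw [List.flatMap_append]

theorem mem_closure_iff2 (φ : FreeGroup (Fin n) →* G) (p : Wd n × Wd n) (g : G) :
    g ∈ closure {φ (FreeGroup.mk p.1), φ (FreeGroup.mk p.2)} ↔
      ∃ u, φ (FreeGroup.mk (sub2 p u)) = g := by
  constructor
  · intro hg
    induction hg using closure_induction with
    | mem x hx =>
      rcases hx with rfl | rfl
      · refine ⟨[(true, true)], ?_⟩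
        simp [sub2]
      · refine ⟨[(false, true)], ?_⟩
        simp [sub2]
    | one =>
      refine ⟨[], ?_⟩
      show φ (FreeGroup.mk []) = 1
      rw [← FreeGroup.one_eq_mk, map_one]
    | mul x y _ _ hx hy =>
      obtain ⟨u, rfl⟩ := hx
      obtain ⟨u', rfl⟩ := hy
      exact ⟨u ++ u', by rw [sub2_append, val_app]⟩
    | inv x hxm hx =>
      obtain ⟨u, rfl⟩ := hx
      clear hxm
      induction u with
      | nil =>
        refine ⟨[], ?_⟩
        show φ (FreeGroup.mk []) = (φ (FreeGroup.mk []))⁻¹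
        rw [← FreeGroup.one_eq_mk, map_one, inv_one]
      | cons x u ih =>
        obtain ⟨u', hu'⟩ := ih
        refine ⟨u' ++ [(x.1, !x.2)], ?_⟩
        have h1 : sub2 p (x :: u) = sub2 p [x] ++ sub2 p u := by
          rw [← sub2_append]
          rfl
        rw [sub2_append, val_app, hu', h1, val_app, mul_inv_rev]
        congr 1
        obtain ⟨a, b⟩ := x
        cases b
        · simp [sub2, ← FreeGroup.inv_mk]
        · simp [sub2, ← FreeGroup.inv_mk]
  · rintro ⟨u, rfl⟩
    induction u with
    | nil =>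
      show φ (FreeGroup.mk []) ∈ _
      rw [← FreeGroup.one_eq_mk, map_one]
      exact one_mem _
    | cons x u ih =>
      have h1 : sub2 p (x :: u) = sub2 p [x] ++ sub2 p u := by
        rw [← sub2_append]
        rfl
      rw [h1, val_app]
      refine mul_mem ?_ ih
      have h2 : φ (FreeGroup.mk p.1) ∈ closure {φ (FreeGroup.mk p.1), φ (FreeGroup.mk p.2)} :=
        subset_closure (Or.inl rfl)
      have h3 : φ (FreeGroup.mk p.2) ∈ closure {φ (FreeGroup.mk p.1), φ (FreeGroup.mk p.2)} :=
        subset_closure (Or.inr rfl)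
      obtain ⟨a, b⟩ := x
      cases a <;> cases b
      · simpa [sub2, ← FreeGroup.inv_mk] using h3
      · simpa [sub2, ← FreeGroup.inv_mk] using h3
      · simpa [sub2, ← FreeGroup.inv_mk] using h2
      · simpa [sub2, ← FreeGroup.inv_mk] using h2

theorem re_forall_fin {α : Type} [Primcodable α] {ι : Type} (s : Finset ι) (P : ι → α → Prop)
    (h : ∀ i, REPred (P i)) : REPred fun a => ∀ i ∈ s, P i a := by
  classical
  induction s using Finset.induction_on with
  | empty =>
    have h0 : ComputablePred fun _ : α => True :=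
      ⟨fun _ => instDecidableTrue, (Computable.const true).of_eq fun _ => by simp⟩
    exact h0.to_re.of_eq fun a => by simp
  | insert i s _ ih =>
    exact (re_and (h i) ih).of_eq fun a => by simp

/-- in a finitely presented group of type (3) it is decidable whether two words generate the group -/
theorem gen_three (hRE : S_RE) (φ : FreeGroup (Fin n) →* G)
    (hφ : Function.Surjective φ) (hf : φ.ker.IsFinitelyNormallyGenerated) (h3 : Type3 G) :
    ComputablePred fun p : Wd n × Wd n =>
      closure {φ (FreeGroup.mk p.1), φ (FreeGroup.mk p.2)} = ⊤ := by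
  have hw := wp_re hRE n G φ hφ hf
  rw [ComputablePred.computable_iff_re_compl_re']
  constructor
  · have h1 : ∀ i : Fin n, REPred fun p : Wd n × Wd n => ∃ u : List (Bool × Bool),
        φ (FreeGroup.mk (sub2 p u ++ [(i, false)])) = 1 := by
      intro i
      have h2 : Primrec fun x : (Wd n × Wd n) × List (Bool × Bool) =>
          sub2 x.1 x.2 ++ [(i, false)] :=
        Primrec.list_append.comp ((primrec_sub2 n).comp Primrec.fst Primrec.snd) (Primrec.const _)
      exact re_exists (p := fun x : (Wd n × Wd n) × List (Bool × Bool) =>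
        φ (FreeGroup.mk (sub2 x.1 x.2 ++ [(i, false)])) = 1) (re_comp hw h2.to_comp)
    refine (re_forall_fin Finset.univ _ h1).of_eq fun p => ?_
    have h2 : ∀ i : Fin n, (∃ u : List (Bool × Bool),
        φ (FreeGroup.mk (sub2 p u ++ [(i, false)])) = 1) ↔
        φ (FreeGroup.of i) ∈ closure {φ (FreeGroup.mk p.1), φ (FreeGroup.mk p.2)} := by
      intro i
      rw [mem_closure_iff2]
      refine exists_congr fun u => ?_
      have h4 : FreeGroup.mk [(i, false)] = (FreeGroup.of i)⁻¹ := rfl
      rw [val_app, h4, map_inv, mul_inv_eq_one]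
    constructor
    · intro h
      rw [eq_top_iff]
      intro g _
      obtain ⟨x, rfl⟩ := hφ g
      have h5 : ∀ x, x ∈ (closure {φ (FreeGroup.mk p.1), φ (FreeGroup.mk p.2)}).comap φ :=
        fun x => FreeGroup.induction_on x (one_mem _)
          (fun i => (h2 i).1 (h i (Finset.mem_univ i)))
          (fun i hi => inv_mem hi) (fun x y hx hy => mul_mem hx hy)
      exact h5 x
    · intro h i _
      rw [h2, h]
      exact mem_top _
  · have h1 : ∀ b : Bool, REPred fun q : (Wd n × Wd n) × (Wd n × (ℕ × Bool) × (ℕ × Bool)) =>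
        φ (FreeGroup.mk ((bif b then q.1.1 else q.1.2) ++
          pz q.2.1 (bif b then q.2.2.1 else q.2.2.2))) = 1 := by
      intro b
      cases b
      · have h2 : Primrec fun q : (Wd n × Wd n) × (Wd n × (ℕ × Bool) × (ℕ × Bool)) =>
            q.1.2 ++ pz q.2.1 q.2.2.2 :=
          Primrec.list_append.comp (Primrec.snd.comp Primrec.fst) ((primrec_pz n).comp
            (Primrec.fst.comp Primrec.snd) (Primrec.snd.comp (Primrec.snd.comp Primrec.snd)))
        exact re_comp hw h2.to_comp
      · have h2 : Primrec fun q : (Wd n × Wd n) × (Wd n × (ℕ × Bool) × (ℕ × Bool)) =>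
            q.1.1 ++ pz q.2.1 q.2.2.1 :=
          Primrec.list_append.comp (Primrec.fst.comp Primrec.fst) ((primrec_pz n).comp
            (Primrec.fst.comp Primrec.snd) (Primrec.fst.comp (Primrec.snd.comp Primrec.snd)))
        exact re_comp hw h2.to_comp
    refine (re_exists (re_and (h1 true) (h1 false))).of_eq fun p => ?_
    constructor
    · rintro ⟨⟨t, x, y⟩, hx, hy⟩ htop
      have hx' : φ (FreeGroup.mk (p.1 ++ pz t x)) = 1 := hx
      have hy' : φ (FreeGroup.mk (p.2 ++ pz t y)) = 1 := hy
      rw [val_app, val_pz, mul_eq_one_iff_eq_inv] at hx' hy'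
      apply h3.1
      have h4 : closure {φ (FreeGroup.mk p.1), φ (FreeGroup.mk p.2)} ≤
          zpowers (φ (FreeGroup.mk t)) := by
        rw [closure_le]
        rintro _ (rfl | rfl)
        · rw [hx']
          exact inv_mem (zpow_mem (mem_zpowers _) _)
        · rw [hy']
          exact inv_mem (zpow_mem (mem_zpowers _) _)
      rw [htop, top_le_iff] at h4
      exact ⟨φ (FreeGroup.mk t), fun x => by
        have : x ∈ zpowers (φ (FreeGroup.mk t)) := by
          rw [h4]
          exact mem_top x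
        exact this⟩
    · intro hne
      obtain ⟨⟨d, hd⟩, hgen⟩ := (h3.2 _ hne).exists_generator
      obtain ⟨t, ht⟩ := exists_word φ hφ d
      obtain ⟨i, hi⟩ := mem_zpowers_iff.1 (hgen ⟨φ (FreeGroup.mk p.1), subset_closure (Or.inl rfl)⟩)
      obtain ⟨j, hj⟩ := mem_zpowers_iff.1 (hgen ⟨φ (FreeGroup.mk p.2), subset_closure (Or.inr rfl)⟩)
      have hi' : d ^ i = φ (FreeGroup.mk p.1) := congrArg Subtype.val hi
      have hj' : d ^ j = φ (FreeGroup.mk p.2) := congrArg Subtype.val hj
      obtain ⟨x, hx⟩ := iz_surj (-i)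
      obtain ⟨y, hy⟩ := iz_surj (-j)
      refine ⟨(t, x, y), ?_, ?_⟩
      · show φ (FreeGroup.mk (p.1 ++ pz t x)) = 1
        rw [val_app, val_pz, ht, hx, ← hi', ← zpow_add, add_neg_cancel, zpow_zero]
      · show φ (FreeGroup.mk (p.2 ++ pz t y)) = 1
        rw [val_app, val_pz, ht, hy, ← hj', ← zpow_add, add_neg_cancel, zpow_zero]

end

end Pool.Agent.L0h77.MO
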