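import Pool.Agent.L0h77.MO.Main

/-! MP_65b575_al, project MO: groups with more generators than relators -/

set_option autoImplicit false
set_option maxHeartbeats 400000

namespace Pool.Agent.L0h77.MO

open Subgroup

/-- the homomorphism to the rational numbers with given values on the generators -/
noncomputable def Lv {n : ℕ} (v : Fin n → ℚ) : FreeGroup (Fin n) →* Multiplicative ℚ :=
  FreeGroup.lift fun i => Multiplicative.ofAdd (v i)

theorem Lv_add {n : ℕ} (v w : Fin n → ℚ) (r : FreeGroup (Fin n)) :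
    (Lv (v + w) r).toAdd = (Lv v r).toAdd + (Lv w r).toAdd := by
  have h : Lv (v + w) = Lv v * Lv w := by
    refine FreeGroup.ext_hom _ _ fun i => ?_
    rw [MonoidHom.mul_apply]
    simp [Lv]
  rw [h, MonoidHom.mul_apply, toAdd_mul]

theorem Lv_smul {n : ℕ} (c : ℚ) (v : Fin n → ℚ) (r : FreeGroup (Fin n)) :
    (Lv (c • v) r).toAdd = c * (Lv v r).toAdd := by
  have h : Lv (c • v) = (AddMonoidHom.toMultiplicative (AddMonoidHom.mulLeft c)).comp (Lv v) := by
    refine FreeGroup.ext_hom _ _ fun i => ?_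
    simp [Lv]
  rw [h]
  rfl

theorem exists_ne_zero_rat {n : ℕ} (R : Set (FreeGroup (Fin n))) (hR : R.Finite)
    (hn : R.ncard < n) : ∃ v : Fin n → ℚ, v ≠ 0 ∧ ∀ r ∈ R, Lv v r = 1 := by
  have : Finite R := hR
  have : Fintype R := Fintype.ofFinite R
  let T : (Fin n → ℚ) →ₗ[ℚ] (R → ℚ) :=
    { toFun := fun v r => (Lv v r.1).toAdd
      map_add' := fun v w => funext fun r => Lv_add v w r.1
      map_smul' := fun c v => funext fun r => Lv_smul c v r.1 }
  have h1 : Module.finrank ℚ (R → ℚ) < Module.finrank ℚ (Fin n → ℚ) := by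
    rw [Module.finrank_fintype_fun_eq_card, Module.finrank_fintype_fun_eq_card, Fintype.card_fin,
      ← Nat.card_eq_fintype_card]
    exact hn
  have h2 := LinearMap.ker_ne_bot_of_finrank_lt (f := T) h1
  obtain ⟨v, hv, hv0⟩ := (Submodule.ne_bot_iff _).1 h2
  refine ⟨v, hv0, fun r hr => ?_⟩
  have h3 := congrFun (LinearMap.mem_ker.1 hv) ⟨r, hr⟩
  exact Multiplicative.toAdd.injective h3

theorem exists_hom {n : ℕ} {G : Type} [Group G] (φ : FreeGroup (Fin n) →* G)
    (hφ : Function.Surjective φ) (R : Set (FreeGroup (Fin n))) (hR : R.Finite)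
    (hker : normalClosure R = φ.ker) (hn : R.ncard < n) :
    ∃ (f : G →* Multiplicative ℤ) (g : G), f g ≠ 1 := by
  obtain ⟨v, hv0, hv⟩ := exists_ne_zero_rat R hR hn
  obtain ⟨i, hi⟩ : ∃ i, v i ≠ 0 := by
    by_contra hc
    push Not at hc
    exact hv0 (funext hc)
  -- clear denominators
  set d : ℕ := ∏ j, (v j).den with hd
  have hd0 : (d : ℚ) ≠ 0 := by
    rw [hd]
    exact_mod_cast (Finset.prod_pos fun j _ => (v j).den_pos).ne'
  have hz : ∀ j, ∃ z : ℤ, (z : ℚ) = (d : ℚ) * v j := by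
    intro j
    obtain ⟨q, hq⟩ := Finset.dvd_prod_of_mem (fun j => (v j).den) (Finset.mem_univ j)
    refine ⟨q * (v j).num, ?_⟩
    have h1 : (d : ℚ) = ((v j).den : ℚ) * q := by
      rw [hd]
      exact_mod_cast hq
    have h2 : ((v j).den : ℚ) * v j = (v j).num := by
      rw [mul_comm]
      exact Rat.mul_den_eq_num (v j)
    push_cast
    rw [h1, mul_assoc, mul_left_comm, h2]
  choose z hz using hz
  let f0 : FreeGroup (Fin n) →* Multiplicative ℤ := FreeGroup.lift fun j => Multiplicative.ofAdd (z j)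
  have hf0 : ∀ r, (((f0 r).toAdd : ℤ) : ℚ) = (Lv ((d : ℚ) • v) r).toAdd := by
    intro r
    have h : (AddMonoidHom.toMultiplicative (Int.castAddHom ℚ)).comp f0 = Lv ((d : ℚ) • v) := by
      refine FreeGroup.ext_hom _ _ fun j => ?_
      simp [f0, Lv, hz]
    rw [← h]
    rfl
  have hk : φ.ker ≤ f0.ker := by
    rw [← hker]
    refine normalClosure_le_normal fun r hr => ?_
    have h1 : ((f0 r).toAdd : ℚ) = 0 := by
      rw [hf0, Lv_smul, hv r hr]
      simp
    have h2 : (f0 r).toAdd = 0 := by exact_mod_cast h1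
    exact Multiplicative.toAdd.injective h2
  refine ⟨φ.liftOfRightInverse _ (Function.rightInverse_surjInv hφ) ⟨f0, hk⟩,
    φ (FreeGroup.of i), ?_⟩
  rw [MonoidHom.liftOfRightInverse_comp_apply]
  intro h
  have h1 : z i = 0 := by
    have h2 : f0 (FreeGroup.of i) = Multiplicative.ofAdd (z i) := FreeGroup.lift_apply_of
    have h3 : f0 (FreeGroup.of i) = 1 := h
    rw [h2] at h3
    exact Multiplicative.ofAdd.injective h3
  have h2 := hz i
  rw [h1, Int.cast_zero] at h2
  rcases mul_eq_zero.1 h2.symm with h3 | h3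
  · exact hd0 h3
  · exact hi h3

section
variable {G : Type} [Group G] (f : G →* Multiplicative ℤ) (g : G)

theorem hom_pow_inj (hg : f g ≠ 1) : Function.Injective fun k : ℕ => f (g ^ k) := by
  have h0 : (f g).toAdd ≠ 0 := fun h => hg (Multiplicative.toAdd.injective h)
  intro a b hab
  have h1 : f (g ^ a) = f (g ^ b) := hab
  rw [map_pow, map_pow] at h1
  have h2 := congrArg Multiplicative.toAdd h1
  rw [toAdd_pow, toAdd_pow, nsmul_eq_mul, nsmul_eq_mul] at h2
  exact_mod_cast mul_right_cancel₀ h0 h2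

theorem hom_two (hg : f g ≠ 1) : ¬ Type2 G := by
  rintro ⟨n, hn, h⟩
  have h1 := hom_pow_inj f g hg (show f (g ^ n) = f (g ^ 0) by rw [h g, pow_zero])
  omega

theorem hom_five (hg : f g ≠ 1) : ¬ Type5 G := by
  intro h
  have h0 : (f g).toAdd ≠ 0 := fun h => hg (Multiplicative.toAdd.injective h)
  obtain ⟨x, hx⟩ := h g ((f g).toAdd.natAbs + 1) (Nat.succ_pos _)
  have h1 : (f g).toAdd = (((f g).toAdd.natAbs + 1 : ℕ) : ℤ) * (f x).toAdd := by
    conv_lhs => rw [← hx, map_pow, toAdd_pow, nsmul_eq_mul]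
  have h2 : (((f g).toAdd.natAbs + 1 : ℕ) : ℤ) ∣ (f g).toAdd := ⟨_, h1⟩
  have h3 := Int.natAbs_dvd_natAbs.2 h2
  rw [Int.natAbs_natCast] at h3
  have h4 := Nat.le_of_dvd (Int.natAbs_pos.2 h0) h3
  omega

theorem hom_six (hg : f g ≠ 1) : ¬ Type6 G := by
  intro h
  have h1 : Finite (ConjClasses G) := h
  have h2 : Function.Injective fun k : ℕ => ConjClasses.mk (g ^ k) := by
    intro a b hab
    have h3 : IsConj (g ^ a) (g ^ b) := ConjClasses.mk_eq_mk_iff_isConj.1 hab
    apply hom_pow_inj f g hg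
    show f (g ^ a) = f (g ^ b)
    exact isConj_iff_eq.1 (f.map_isConj h3)
  exact not_finite_iff_infinite.2 (inferInstance : Infinite ℕ) (Finite.of_injective _ h2)

theorem hom_infinite (hg : f g ≠ 1) : Infinite G := by
  refine Infinite.of_injective (fun k : ℕ => g ^ k) fun a b hab => ?_
  have hab' : g ^ a = g ^ b := hab
  exact hom_pow_inj f g hg (show f (g ^ a) = f (g ^ b) by rw [hab'])

theorem hom_ab (hg : f g ≠ 1) : Infinite (Abelianization G) := by
  refine Infinite.of_injective (fun k : ℕ => Abelianization.of (g ^ k)) fun a b hab => ?_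
  have hab' : Abelianization.of (g ^ a) = Abelianization.of (g ^ b) := hab
  apply hom_pow_inj f g hg
  show f (g ^ a) = f (g ^ b)
  have h1 := congrArg (Abelianization.lift f) hab'
  rwa [Abelianization.lift_apply_of, Abelianization.lift_apply_of] at h1

theorem hom_three (h1 : S_CYZ) [Group.FG G] (hg : f g ≠ 1) : ¬ Type3 G := by
  intro h3
  exact h3.1 (h1 G h3.2 (hom_ab f g hg))

end

end Pool.Agent.L0h77.MO
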