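import Pool.Agent.L0h77.MO.Main
import Pool.Agent.L0h85.MO.GRW

/-! MP_65b575_al, project MO: distortion; complete groups with cyclic proper subgroups -/

set_option autoImplicit false
set_option maxHeartbeats 400000

namespace Pool.Agent.L0h77.MO

open Subgroup Pool.Agent.L0h85.MO

section
variable {G : Type} [Group G]

theorem ball_pow (S : Finset G) {g : G} {L : ℕ} (hg : g ∈ ball S L) (m : ℕ) :
    g ^ m ∈ ball S (L * m) := by
  induction m with
  | zero => rw [pow_zero]; exact one_mem_ball S _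
  | succ m ih => rw [pow_succ, Nat.mul_succ]; exact ball_mul S ih hg

/-- every cyclic subgroup of a group with finitely many conjugacy classes is exponentially distorted -/
theorem six_dist (hG : Finite (ConjClasses G)) (S : Finset G)
    (hS : Subgroup.closure (S : Set G) = ⊤) (g : G) :
    ∃ C : ℕ, ∀ m : ℕ, g ^ m ∈ ball S (C * (Nat.log 2 m + 1)) := by
  obtain ⟨n, hn, h⟩ := power_conj hG g
  obtain ⟨k, hk2, -, hk⟩ := h 1 one_pos
  obtain ⟨s, hs⟩ := isConj_iff.1 hk
  set a : G := g ^ n with ha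
  obtain ⟨L1, hL1⟩ := exists_ball S hS g
  obtain ⟨L2, hL2⟩ := exists_ball S hS a
  obtain ⟨L3, hL3⟩ := exists_ball S hS s
  obtain ⟨L4, hL4⟩ := exists_ball S hS s⁻¹
  set D : ℕ := L2 * k + L3 + L4 with hD
  have key : ∀ m : ℕ, a ^ m ∈ ball S (D * (Nat.log 2 m + 1)) := by
    intro m
    induction m using Nat.strong_induction_on with
    | _ m ih =>
      rcases Nat.lt_or_ge m k with hmk | hmk
      · refine ball_mono S ?_ (ball_pow S hL2 m)
        have h1 : L2 * m ≤ L2 * k := Nat.mul_le_mul_left _ hmk.le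
        have h2 : D ≤ D * (Nat.log 2 m + 1) := Nat.le_mul_of_pos_right _ (Nat.succ_pos _)
        omega
      · have hdiv : m / k < m := Nat.div_lt_self (by omega) (by omega)
        have h1 := ih (m / k) hdiv
        have h2 : a ^ m = a ^ (m % k) * (s * a ^ (m / k) * s⁻¹) := by
          rw [← conj_pow, hs, ← pow_mul a k, ← pow_add, Nat.mod_add_div]
        rw [h2]
        have h3 : Nat.log 2 (m / k) + 1 ≤ Nat.log 2 m := by
          have h4 : m / k ≤ m / 2 := Nat.div_le_div_left hk2 (by norm_num)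
          have h5 : Nat.log 2 (m / k) ≤ Nat.log 2 (m / 2) := Nat.log_mono_right h4
          have h6 : Nat.log 2 (m / 2) = Nat.log 2 m - 1 := Nat.log_div_base 2 m
          have h7 : 0 < Nat.log 2 m := Nat.log_pos (by norm_num) (by omega)
          omega
        have h8 : a ^ (m % k) ∈ ball S (L2 * k) :=
          ball_mono S (Nat.mul_le_mul_left _ (Nat.mod_lt _ (by omega)).le) (ball_pow S hL2 _)
        refine ball_mono S ?_ (ball_mul S h8 (ball_mul S (ball_mul S hL3 h1) hL4))
        have h9 : D * (Nat.log 2 (m / k) + 1) ≤ D * Nat.log 2 m := Nat.mul_le_mul_left _ h3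
        have h10 : D * (Nat.log 2 m + 1) = D * Nat.log 2 m + D := by ring
        omega
  refine ⟨L1 * n + D, fun m => ?_⟩
  have h2 : g ^ m = g ^ (m % n) * a ^ (m / n) := by
    rw [ha, ← pow_mul, ← pow_add, Nat.mod_add_div]
  rw [h2]
  refine ball_mono S ?_ (ball_mul S (ball_pow S hL1 (m % n)) (key (m / n)))
  have h3 : L1 * (m % n) ≤ L1 * n := Nat.mul_le_mul_left _ (Nat.mod_lt _ hn).le
  have h4 : L1 * n ≤ L1 * n * (Nat.log 2 m + 1) := Nat.le_mul_of_pos_right _ (Nat.succ_pos _)
  have h5 : D * (Nat.log 2 (m / n) + 1) ≤ D * (Nat.log 2 m + 1) :=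
    Nat.mul_le_mul_left _ (Nat.succ_le_succ (Nat.log_mono_right (Nat.div_le_self _ _)))
  have h6 : (L1 * n + D) * (Nat.log 2 m + 1) =
      L1 * n * (Nat.log 2 m + 1) + D * (Nat.log 2 m + 1) := by ring
  omega

/-- a group of type (6) in which the elements of infinite order are undistorted has bounded exponent -/
theorem six_undist (hG : Finite (ConjClasses G)) (S : Finset G)
    (hS : Subgroup.closure (S : Set G) = ⊤)
    (hu : ∀ g : G, InfOrd g → ∃ c : ℕ, ∀ m r : ℕ, g ^ m ∈ ball S r → m ≤ c * (r + 1)) :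
    Type2 G := by
  refine six_tors hG fun g hg => ?_
  obtain ⟨C, hC⟩ := six_dist hG S hS g
  obtain ⟨c, hc⟩ := hu g hg
  have h1 : ∀ i : ℕ, 2 ^ i ≤ c * (C * (i + 1) + 1) := by
    intro i
    have h2 := hc (2 ^ i) _ (hC (2 ^ i))
    rwa [Nat.log_pow (by norm_num)] at h2
  -- `i * i ≤ 2 ^ i` for large `i`
  have h3 : ∀ i : ℕ, 4 ≤ i → i * i ≤ 2 ^ i := by
    intro i hi
    induction i, hi using Nat.le_induction with
    | base => norm_num
    | succ i hi ih =>
      rw [pow_succ]
      nlinarith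
  set A : ℕ := c * (2 * C + 1) + 4 with hA
  have h4 := h1 A
  have h5 := h3 A (by omega)
  have h6 : c * (C * (A + 1) + 1) ≤ c * (2 * C + 1) * A := by
    have h7 : C * (A + 1) + 1 ≤ (2 * C + 1) * A := by
      have : 4 ≤ A := by omega
      nlinarith [Nat.zero_le C]
    calc c * (C * (A + 1) + 1) ≤ c * ((2 * C + 1) * A) := Nat.mul_le_mul_left _ h7
      _ = c * (2 * C + 1) * A := by ring
  have h8 : c * (2 * C + 1) * A < A * A := Nat.mul_lt_mul_of_pos_right (by omega) (by omega)
  omega

end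

end Pool.Agent.L0h77.MO
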