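import Pool.Agent.L0h77.MO.Quot

/-! MP_65b575_al, project MO: elementary amenable groups -/

set_option autoImplicit false
set_option maxHeartbeats 400000

namespace Pool.Agent.L0h77.MO

open Subgroup

/-- The class `P` contains all finite and all commutative groups and is closed under isomorphism,
subgroups, quotients, extensions and directed unions. -/
structure EAClosed (P : (G : Type) → [Group G] → Prop) : Prop where
  fin : ∀ (G : Type) [Group G], Finite G → P G
  comm : ∀ (G : Type) [Group G], (∀ x y : G, x * y = y * x) → P G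
  iso : ∀ (G H : Type) [Group G] [Group H], Nonempty (G ≃* H) → P G → P H
  sub : ∀ (G : Type) [Group G] (K : Subgroup G), P G → P K
  quot : ∀ (G : Type) [Group G] (N : Subgroup G) [N.Normal], P G → P (G ⧸ N)
  ext : ∀ (G : Type) [Group G] (N : Subgroup G) [N.Normal], P N → P (G ⧸ N) → P G
  union : ∀ (G : Type) [Group G] (s : Set (Subgroup G)), s.Nonempty → DirectedOn (· ≤ ·) s →
    sSup s = ⊤ → (∀ K ∈ s, P K) → P G

/-- `G` is elementary amenable: it is in every class as in `EAClosed`, that is in the smallest one. -/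
def EA (G : Type) [Group G] : Prop :=
  ∀ P : (G : Type) → [Group G] → Prop, EAClosed P → P G

/-- all elements have finite order -/
def Tors (G : Type) [Group G] : Prop := ∀ g : G, ∃ n : ℕ, 0 < n ∧ g ^ n = 1

/-- all finitely generated sections which are simple or torsion are finite -/
def FS (G : Type) [Group G] : Prop :=
  ∀ (H : Subgroup G) (T : Type) [Group T] [Group.FG T] (f : H →* T), Function.Surjective f →
    (IsSimpleGroup T ∨ Tors T) → Finite T

theorem comm_simple_tors (T : Type) [Group T] (hc : ∀ x y : T, x * y = y * x)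
    (hs : IsSimpleGroup T) : Tors T := by
  intro g
  have hn : (zpowers (g ^ 2)).Normal := ⟨fun n hn c => by rwa [hc c n, mul_inv_cancel_right]⟩
  rcases hs.eq_bot_or_eq_top_of_normal _ hn with h | h
  · exact ⟨2, by norm_num, zpowers_eq_bot.1 h⟩
  · have h1 : g ∈ zpowers (g ^ 2) := by
      rw [h]
      exact mem_top g
    obtain ⟨j, hj⟩ := mem_zpowers_iff.1 h1
    have h5 : g ^ (2 * j - 1) = 1 := by
      rw [zpow_sub, zpow_mul, zpow_one]
      have : (g ^ (2 : ℤ)) ^ j = g := by exact_mod_cast hj
      rw [this, mul_inv_cancel]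
    have h6 : IsOfFinOrder g := isOfFinOrder_iff_zpow_eq_one.2 ⟨2 * j - 1, by omega, h5⟩
    exact isOfFinOrder_iff_pow_eq_one.1 h6

theorem comm_fin (T : Type) [Group T] [Group.FG T] (hc : ∀ x y : T, x * y = y * x)
    (h : IsSimpleGroup T ∨ Tors T) : Finite T := by
  have ht : Tors T := by
    rcases h with h | h
    · exact comm_simple_tors T hc h
    · exact h
  let _ : CommGroup T := { ‹Group T› with mul_comm := hc }
  refine CommGroup.finite_of_fg_torsion T fun g => ?_
  exact isOfFinOrder_iff_pow_eq_one.2 (ht g)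

theorem push {G T : Type} [Group G] [Group T] (N : Subgroup G) [N.Normal] (H : Subgroup G)
    (f : H →* T) (hf : Function.Surjective f) (hk : ∀ x : H, x.1 ∈ N → f x = 1) :
    ∃ g : H.map (QuotientGroup.mk' N) →* T, Function.Surjective g := by
  have hs := (QuotientGroup.mk' N).subgroupMap_surjective H
  have hker : ((QuotientGroup.mk' N).subgroupMap H).ker ≤ f.ker := by
    intro x hx
    apply hk
    have h1 : QuotientGroup.mk' N x.1 = 1 := congrArg Subtype.val (MonoidHom.mem_ker.1 hx)
    exact (QuotientGroup.eq_one_iff x.1).1 h1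
  refine ⟨((QuotientGroup.mk' N).subgroupMap H).liftOfRightInverse _
    (Function.rightInverse_surjInv hs) ⟨f, hker⟩, fun t => ?_⟩
  obtain ⟨x, rfl⟩ := hf t
  exact ⟨(QuotientGroup.mk' N).subgroupMap H x, MonoidHom.liftOfRightInverse_comp_apply _ _ _ _ _⟩

theorem fs_closed : EAClosed FS where
  fin := by
    intro G _ hG H T _ _ f hf _
    exact Finite.of_surjective f hf
  comm := by
    intro G _ hc H T _ _ f hf h
    refine comm_fin T (fun x y => ?_) h
    obtain ⟨a, rfl⟩ := hf x
    obtain ⟨b, rfl⟩ := hf y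
    rw [← map_mul, ← map_mul, show a * b = b * a from Subtype.ext (hc a b)]
  iso := by
    rintro G H _ _ ⟨e⟩ hG K T _ _ f hf h
    exact hG (K.comap e.toMonoidHom) T (f.comp (e.toMonoidHom.subgroupComap K))
      (hf.comp (MonoidHom.subgroupComap_surjective_of_surjective _ _ e.surjective)) h
  sub := by
    intro G _ K hG H T _ _ f hf h
    let e := H.equivMapOfInjective K.subtype K.subtype_injective
    exact hG (H.map K.subtype) T (f.comp e.symm.toMonoidHom) (hf.comp e.symm.surjective) h
  quot := by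
    intro G _ N _ hG H T _ _ f hf h
    exact hG (H.comap (QuotientGroup.mk' N)) T (f.comp ((QuotientGroup.mk' N).subgroupComap H))
      (hf.comp (MonoidHom.subgroupComap_surjective_of_surjective _ _
        (QuotientGroup.mk'_surjective N))) h
  ext := by
    intro G _ N hNn hN hQ H T _ _ f hf h
    -- the part in `N`
    let j : H.subgroupOf N →* H :=
      { toFun := fun x => ⟨x.1.1, x.2⟩
        map_one' := rfl
        map_mul' := fun _ _ => rfl }
    set T0 : Subgroup T := (f.comp j).range with hT0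
    have hmem : ∀ t, t ∈ T0 ↔ ∃ y : H, y.1 ∈ N ∧ f y = t := by
      intro t
      constructor
      · rintro ⟨x, rfl⟩
        exact ⟨j x, x.1.2, rfl⟩
      · rintro ⟨y, hy, rfl⟩
        exact ⟨⟨⟨y.1, hy⟩, y.2⟩, rfl⟩
    have hn : T0.Normal := by
      refine ⟨fun t ht c => ?_⟩
      obtain ⟨y, hy, rfl⟩ := (hmem t).1 ht
      obtain ⟨z, rfl⟩ := hf c
      refine (hmem _).2 ⟨z * y * z⁻¹, ?_, by simp⟩
      exact hNn.conj_mem y.1 hy z.1
    rcases h with h | h
    · rcases h.eq_bot_or_eq_top_of_normal T0 hn with h0 | h0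
      · obtain ⟨g, hg⟩ := push N H f hf fun x hx => by
          have h1 : f x ∈ T0 := (hmem _).2 ⟨x, hx, rfl⟩
          rwa [h0, mem_bot] at h1
        exact hQ _ T g hg (Or.inl h)
      · exact hN (H.subgroupOf N) T (f.comp j) (MonoidHom.range_eq_top.1 h0) (Or.inl h)
    · obtain ⟨g, hg⟩ := push N H ((QuotientGroup.mk' T0).comp f)
        ((QuotientGroup.mk'_surjective T0).comp hf) fun x hx =>
          (QuotientGroup.eq_one_iff (f x)).2 ((hmem _).2 ⟨x, hx, rfl⟩)
      have hfq : Finite (T ⧸ T0) := hQ _ (T ⧸ T0) g hg (Or.inr fun q => by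
        obtain ⟨t, rfl⟩ := QuotientGroup.mk'_surjective T0 q
        obtain ⟨n, hn, hn'⟩ := h t
        exact ⟨n, hn, by rw [← map_pow, hn', map_one]⟩)
      have hfi : T0.FiniteIndex := finiteIndex_of_finite_quotient
      have hfg : Group.FG T0 := fg_of_index_ne_zero T0
      have hfT : Finite T0 := hN (H.subgroupOf N) T0 (f.comp j).rangeRestrict
        (f.comp j).rangeRestrict_surjective (Or.inr fun t => by
          obtain ⟨n, hn, hn'⟩ := h t.1
          exact ⟨n, hn, Subtype.ext hn'⟩)
      exact Finite.of_equiv _ (T0.groupEquivQuotientProdSubgroup).symm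
  union := by
    classical
    intro G _ s hne hd htop hs H T _ hfg f hf h
    obtain ⟨S, hS⟩ := Group.fg_def.1 hfg
    choose r hr using hf
    have h1 : ∀ U : Finset T, ∃ K ∈ s, ∀ t ∈ U, (r t).1 ∈ K := by
      intro U
      induction U using Finset.induction_on with
      | empty =>
        obtain ⟨K, hK⟩ := hne
        exact ⟨K, hK, by simp⟩
      | insert x U _ ih =>
        obtain ⟨K, hK, hU⟩ := ih
        have hx : (r x).1 ∈ sSup s := by
          rw [htop]
          exact mem_top _
        obtain ⟨K', hK', hx'⟩ := (mem_sSup_of_directedOn hne hd).1 hx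
        obtain ⟨L, hL, h2, h3⟩ := hd K hK K' hK'
        refine ⟨L, hL, fun t ht => ?_⟩
        rcases Finset.mem_insert.1 ht with rfl | ht
        · exact h3 hx'
        · exact h2 (hU t ht)
    obtain ⟨K, hK, hKS⟩ := h1 S
    let j : H.subgroupOf K →* H :=
      { toFun := fun x => ⟨x.1.1, x.2⟩
        map_one' := rfl
        map_mul' := fun _ _ => rfl }
    refine hs K hK (H.subgroupOf K) T (f.comp j) ?_ h
    rw [← MonoidHom.range_eq_top, eq_top_iff, ← hS, closure_le]
    intro t ht
    exact ⟨⟨⟨(r t).1, hKS t ht⟩, (r t).2⟩, hr t⟩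

theorem ea_fs {G : Type} [Group G] (h : EA G) : FS G := h FS fs_closed

theorem fs_self {G : Type} [Group G] (h : FS G) (T : Type) [Group T] [Group.FG T] (f : G →* T)
    (hf : Function.Surjective f) (hT : IsSimpleGroup T ∨ Tors T) : Finite T :=
  h ⊤ T (f.comp topEquiv.toMonoidHom) (fun t => by
    obtain ⟨x, rfl⟩ := hf t
    exact ⟨⟨x, mem_top x⟩, rfl⟩) hT

theorem fs_none (h1 : S_CYZ) (h2 : S_CEN) (h3 : S_FIC) (G : Type) [Group G] [Group.FG G]
    [Infinite G] (h : FS G) : ¬ Type2 G ∧ ¬ Type3 G ∧ ¬ Type4 G ∧ ¬ Type5 G ∧ ¬ Type6 G := by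
  have key3 : ¬ Type3 G := by
    intro ht
    obtain ⟨-, -, hs, hi, -, -⟩ := type3_main h1 h2 G ht
    have hfg : Group.FG (G ⧸ center G) := QuotientGroup.fg _
    exact not_finite_iff_infinite.2 hi (fs_self h _ (QuotientGroup.mk' (center G))
      (QuotientGroup.mk'_surjective _) (Or.inl hs))
  refine ⟨?_, key3, fun h4 => key3 (type4_main h1 h2 G h4).1, ?_, ?_⟩
  · rintro ⟨n, hn, ht⟩
    exact not_finite_iff_infinite.2 ‹Infinite G› (fs_self h G (MonoidHom.id G)
      Function.surjective_id (Or.inr fun g => ⟨n, hn, ht g⟩))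
  · intro h5
    obtain ⟨M, hM, hs, hi, -⟩ := five_simple h5
    have hfg : Group.FG (G ⧸ M) := QuotientGroup.fg _
    exact not_finite_iff_infinite.2 hi (fs_self h _ (QuotientGroup.mk' M)
      (QuotientGroup.mk'_surjective _) (Or.inl hs))
  · intro h6
    obtain ⟨R, M, hM, -, hRf, hs, hi, -, -⟩ := six_simple h3 h6
    have hRfg : Group.FG R := fg_of_index_ne_zero R
    have hfg : Group.FG (R ⧸ M) := QuotientGroup.fg _
    exact not_finite_iff_infinite.2 hi (h R (R ⧸ M) (QuotientGroup.mk' M)
      (QuotientGroup.mk'_surjective _) (Or.inl hs))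

end Pool.Agent.L0h77.MO
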