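import Pool.Agent.L0h77.MO.Main

/-! MP_65b575_al, project MO: complete groups with cyclic proper subgroups -/

set_option autoImplicit false
set_option maxHeartbeats 400000

namespace Pool.Agent.L0h77.MO

open Subgroup

section
variable {G : Type} [Group G]

theorem five_two (h5 : Type5 G) (h2 : Type2 G) (g : G) : g = 1 := by
  obtain ⟨n, hn, h⟩ := h2
  obtain ⟨x, hx⟩ := h5 g n hn
  rw [← hx, h x]

theorem three_five [Group.FG G] (h3 : Type3 G) (h5 : Type5 G) : False := by
  classical
  have hnt : Nontrivial G := by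
    by_contra hc
    rw [not_nontrivial_iff_subsingleton] at hc
    exact h3.1 inferInstance
  obtain ⟨g, hg⟩ := exists_ne (1 : G)
  choose r hr using fun (x : G) (i : ℕ) => h5 x (i + 1) (Nat.succ_pos i)
  let b : ℕ → G := fun i => Nat.rec g (fun i x => r x i) i
  have hb0 : b 0 = g := rfl
  have hb : ∀ i, b (i + 1) ^ (i + 1) = b i := fun i => hr (b i) i
  have hmono : Monotone fun i => zpowers (b i) := by
    refine monotone_nat_of_le_succ fun i => ?_
    rw [zpowers_le, ← hb i]
    exact pow_mem (mem_zpowers _) _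
  have hdir : Directed (· ≤ ·) fun i => zpowers (b i) := hmono.directed_le
  set D : Subgroup G := ⨆ i, zpowers (b i) with hD
  have hbD : ∀ i, b i ∈ D := fun i => (le_iSup (fun i => zpowers (b i)) i) (mem_zpowers _)
  have hne : ∀ i, b i ≠ 1 := by
    intro i hi
    have h1 : g ∈ zpowers (b i) := (hmono (Nat.zero_le i)) (mem_zpowers (b 0))
    rw [hi, zpowers_one_eq_bot, mem_bot] at h1
    exact hg h1
  have hstop : ∀ i, ¬ D ≤ zpowers (b i) := by
    intro i hDi
    have hj : ∀ j, b j ∈ zpowers (b i) := fun j => hDi (hbD j)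
    -- `b i` has finite order
    have hfin : ∃ N : ℕ, 0 < N ∧ b i ^ N = 1 := by
      obtain ⟨t, ht⟩ := mem_zpowers_iff.1 (hj (i + 1 + 1))
      have h1 : b i = b (i + 1 + 1) ^ ((i + 2) * (i + 1)) := by
        rw [pow_mul]
        have := hb (i + 1)
        rw [show i + 1 + 1 = i + 2 from rfl] at this
        rw [this, hb i]
      have h2 : b (i + 1 + 1) ^ ((((i + 2) * (i + 1) : ℕ) : ℤ) * t - 1) = 1 := by
        rw [zpow_sub, zpow_mul, zpow_natCast, ← h1, ht, zpow_one, mul_inv_cancel]
      have h3 : IsOfFinOrder (b (i + 1 + 1)) := by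
        rw [isOfFinOrder_iff_zpow_eq_one]
        refine ⟨_, ?_, h2⟩
        intro h4
        have h5 : (2 : ℤ) ∣ (((i + 2) * (i + 1) : ℕ) : ℤ) := by
          have h6 : 2 ∣ (i + 2) * (i + 1) := by
            have := Nat.even_mul_succ_self (i + 1)
            rw [mul_comm]
            exact this.two_dvd
          exact_mod_cast h6
        obtain ⟨q, hq⟩ := h5
        rw [hq, mul_assoc] at h4
        omega
      have h4 : IsOfFinOrder (b i) := by
        rw [h1]
        exact h3.pow
      exact isOfFinOrder_iff_pow_eq_one.1 h4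
    obtain ⟨N, hN, h1⟩ := hfin
    have h2 : ∀ j, b (i + j) ^ ((i + 1).ascFactorial j) = b i := by
      intro j
      induction j with
      | zero => rw [Nat.ascFactorial_zero, pow_one, add_zero]
      | succ j ih =>
        rw [Nat.ascFactorial_succ, show i + 1 + j = i + j + 1 by ring, pow_mul,
          show i + (j + 1) = i + j + 1 by ring, hb, ih]
    have h3 : N ∣ (i + 1).ascFactorial N :=
      (Nat.dvd_factorial hN le_rfl).trans (Nat.factorial_dvd_ascFactorial _ _)
    obtain ⟨q, hq⟩ := h3
    obtain ⟨t, ht⟩ := mem_zpowers_iff.1 (hj (i + N))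
    have h6 : (b i ^ t) ^ N = 1 := by
      rw [← zpow_natCast (b i ^ t) N, ← zpow_mul, mul_comm t, zpow_mul, zpow_natCast, h1, one_zpow]
    apply hne i
    rw [← h2 N, hq, pow_mul, ← ht, h6, one_pow]
  by_cases htop : D = ⊤
  · obtain ⟨S, hS⟩ := Group.fg_def.1 ‹Group.FG G›
    have h1 : ∀ x ∈ S, ∃ i, x ∈ zpowers (b i) := by
      intro x _
      have h2 : x ∈ D := by
        rw [htop]
        exact mem_top x
      exact (mem_iSup_of_directed hdir).1 h2
    choose! f hf using h1
    have h2 : closure (S : Set G) ≤ zpowers (b (S.sup f)) := by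
      rw [closure_le]
      intro x hx
      exact hmono (Finset.le_sup (f := f) hx) (hf x hx)
    rw [hS] at h2
    exact hstop _ (le_top.trans h2)
  · obtain ⟨⟨d, hd⟩, hgen⟩ := (h3.2 D htop).exists_generator
    obtain ⟨i, hi⟩ := (mem_iSup_of_directed hdir).1 hd
    refine hstop i fun x hx => ?_
    obtain ⟨t, ht⟩ := mem_zpowers_iff.1 (hgen ⟨x, hx⟩)
    have ht' : d ^ t = x := congrArg Subtype.val ht
    rw [← ht']
    exact zpow_mem hi t

end

end Pool.Agent.L0h77.MO
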