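import Mathlib

/-! MP_65b575_al, project MO: growth -/

set_option autoImplicit false
set_option maxHeartbeats 400000

namespace Pool.Agent.L0h77.MO

/-- the ball of radius `r` in the word metric of `S` -/
def ball {G : Type} [Group G] (S : Finset G) (r : ℕ) : Set G :=
  {g | ∃ w : List G, w.length ≤ r ∧ (∀ x ∈ w, x ∈ S ∨ x⁻¹ ∈ S) ∧ w.prod = g}

/-- the growth function: the number of elements of word length at most `r` -/
noncomputable def growth {G : Type} [Group G] (S : Finset G) (r : ℕ) : ℕ := Nat.card (ball S r)

/-- (7) `G` is finitely generated and its growth function is bounded above by no polynomial and bounded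
below by no exponential function `exp (c r)`, `c > 0`. -/
def Type7 (G : Type) [Group G] : Prop :=
  ∃ S : Finset G, Subgroup.closure (S : Set G) = ⊤ ∧
    (∀ C d : ℕ, ∃ r : ℕ, C * (r + 1) ^ d < growth S r) ∧
    ∀ c : ℝ, 0 < c → ∃ r : ℕ, (growth S r : ℝ) < Real.exp (c * r)

/-- GRW: a free submonoid of rank two gives exponential growth. Sketch: the two free generators are in the
ball of radius `L ≥ 1`; the ball of radius `L * n` has at least `2 ^ n` elements, and the ball of radius one
has at least two; `c = log 2 / (2 * L)`. (The balls are finite.) -/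
def S_GRW : Prop := ∀ (G : Type) [Group G] [Infinite G] (S : Finset G),
  Subgroup.closure (S : Set G) = ⊤ → ∀ x y : G, Function.Injective (FreeMonoid.lift ![x, y]) →
    ∃ c : ℝ, 0 < c ∧ ∀ r : ℕ, Real.exp (c * r) ≤ (growth S r : ℝ)

end Pool.Agent.L0h77.MO
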