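import Pool.Agent.L0h77.MO.Stm

/-! MP_65b575_al, project MO: monsters of types (3) and (4) -/

set_option autoImplicit false
set_option maxHeartbeats 400000

namespace Pool.Agent.L0h77.MO

open Subgroup
open scoped commutatorElement

theorem fin_comm {G : Type} [Group G] (h : (center G).FiniteIndex) :
    Finite (_root_.commutator G) := by
  have h1 : Finite (G ⧸ center G) := finite_quotient_of_finiteIndex
  have h2 : Finite (commutatorSet G) := by
    refine Set.Finite.subset (Set.finite_range
      fun p : (G ⧸ center G) × (G ⧸ center G) => ⁅p.1.out, p.2.out⁆) ?_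
    rintro _ ⟨g, k, rfl⟩
    refine ⟨((g : G ⧸ center G), (k : G ⧸ center G)), ?_⟩
    obtain ⟨z, hz⟩ := QuotientGroup.mk_out_eq_mul (center G) g
    obtain ⟨y, hy⟩ := QuotientGroup.mk_out_eq_mul (center G) k
    show ⁅((g : G ⧸ center G)).out, ((k : G ⧸ center G)).out⁆ = ⁅g, k⁆
    rw [hz, hy, commutatorElement_def, commutatorElement_def]
    have a1 := mem_center_iff.1 z.2
    have a2 := mem_center_iff.1 y.2
    have e1 : g * (z : G) * (k * (y : G)) = g * k * ((z : G) * (y : G)) := by
      rw [mul_assoc, ← mul_assoc (z : G) k, ← a1 k]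
      group
    have e2 : (g * (z : G))⁻¹ * (k * (y : G))⁻¹ = ((z : G) * (y : G))⁻¹ * (g⁻¹ * k⁻¹) := by
      have b1 : g * (z : G) = (z : G) * g := a1 g
      have b2 : k * (y : G) = (y : G) * k := a2 k
      have b3 : g⁻¹ * (y : G)⁻¹ = (y : G)⁻¹ * g⁻¹ := by
        have := a2 g
        rw [← mul_inv_rev, ← mul_inv_rev, ← this]
      have b4 : (z : G)⁻¹ * (y : G)⁻¹ = (y : G)⁻¹ * (z : G)⁻¹ := by
        have := a2 (z : G)
        rw [← mul_inv_rev, ← mul_inv_rev, ← this]
      have b5 : g⁻¹ * (z : G)⁻¹ = (z : G)⁻¹ * g⁻¹ := by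
        rw [← mul_inv_rev, ← mul_inv_rev, ← b1]
      have b6 : k⁻¹ * (y : G)⁻¹ = (y : G)⁻¹ * k⁻¹ := by
        rw [← mul_inv_rev, ← mul_inv_rev, ← b2]
      rw [mul_inv_rev, mul_inv_rev, mul_inv_rev, ← mul_assoc, mul_assoc (z : G)⁻¹ g⁻¹, b3,
        ← mul_assoc (z : G)⁻¹, b4]
      group
    calc g * (z : G) * (k * (y : G)) * (g * (z : G))⁻¹ * (k * (y : G))⁻¹
        = (g * (z : G) * (k * (y : G))) * ((g * (z : G))⁻¹ * (k * (y : G))⁻¹) := by
          rw [mul_assoc (g * (z : G) * (k * (y : G)))]
      _ = g * k * g⁻¹ * k⁻¹ := by rw [e1, e2]; group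
  infer_instance

theorem inf_ab {G : Type} [Group G] [Infinite G] (h : Finite (_root_.commutator G)) :
    Infinite (Abelianization G) := by
  by_contra hc
  rw [not_infinite_iff_finite] at hc
  have h1 : Finite (G ⧸ _root_.commutator G) := hc
  exact not_finite_iff_infinite.2 ‹Infinite G›
    (Finite.of_equiv _ (_root_.commutator G).groupEquivQuotientProdSubgroup.symm)

theorem type3_main (h1 : S_CYZ) (h2 : S_CEN) (G : Type) [Group G] [Group.FG G] [Infinite G]
    (h : Type3 G) : (∀ N : Subgroup G, N.Normal → N ≠ ⊤ → N ≤ center G) ∧ IsCyclic (center G) ∧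
    IsSimpleGroup (G ⧸ center G) ∧ Infinite (G ⧸ center G) ∧ Type3 (G ⧸ center G) ∧
    (Group.IsFinitelyPresented G → Group.IsFinitelyPresented (G ⧸ center G)) := by
  have hN := h2 G h
  have hab : ¬ Infinite (Abelianization G) := fun hi => h.1 (h1 G h.2 hi)
  have hZ : center G ≠ ⊤ := by
    intro hc
    have h3 : _root_.commutator G = ⊥ := (commutator_eq_bot_iff_center_eq_top G).2 hc
    refine hab (inf_ab ?_)
    rw [h3]
    infer_instance
  have hZc := h.2 _ hZ
  have hinf : Infinite (G ⧸ center G) := by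
    by_contra hc
    rw [not_infinite_iff_finite] at hc
    exact hab (inf_ab (fin_comm finiteIndex_of_finite_quotient))
  have hsurj := QuotientGroup.mk'_surjective (center G)
  have hcomap : ∀ L : Subgroup (G ⧸ center G), L.comap (QuotientGroup.mk' (center G)) = ⊤ →
      L = ⊤ := fun L hL => by
    rw [← map_comap_eq_self_of_surjective hsurj L, hL, map_top_of_surjective _ hsurj]
  refine ⟨hN, hZc, ?_, hinf, ⟨fun hcyc => ?_, fun L hL => ?_⟩, fun hfp => ?_⟩
  · refine ⟨fun L hL => ?_⟩
    by_contra hcon
    rw [not_or] at hcon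
    have h3 := hN _ (hL.comap (QuotientGroup.mk' (center G))) fun h' => hcon.2 (hcomap L h')
    apply hcon.1
    rw [← map_comap_eq_self_of_surjective hsurj L, eq_bot_iff, map_le_iff_le_comap]
    intro x hx
    rw [mem_comap, mem_bot]
    exact (QuotientGroup.eq_one_iff x).2 (h3 hx)
  · apply hZ
    rw [eq_top_iff]
    intro x _
    rw [mem_center_iff]
    intro y
    exact commutative_of_cyclic_center_quotient (QuotientGroup.mk' (center G))
      (by rw [QuotientGroup.ker_mk']) y x
  · have h3 := h.2 (L.comap (QuotientGroup.mk' (center G))) fun h' => hL (hcomap L h')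
    rw [← map_comap_eq_self_of_surjective hsurj L]
    exact isCyclic_of_surjective _ ((QuotientGroup.mk' (center G)).subgroupMap_surjective
      (L.comap (QuotientGroup.mk' (center G))))
  · have := hfp
    refine Group.IsFinitelyPresented.quotient (center G) ?_
    obtain ⟨⟨z, hz⟩, hgen⟩ := hZc.exists_generator
    refine ⟨{z}, Set.finite_singleton z, le_antisymm ?_ fun x hx => ?_⟩
    · refine normalClosure_le_normal ?_
      rintro _ rfl
      exact hz
    · obtain ⟨j, hj⟩ := mem_zpowers_iff.1 (hgen ⟨x, hx⟩)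
      have hj' : z ^ j = x := congrArg Subtype.val hj
      rw [← hj']
      exact zpow_mem (subset_normalClosure (Set.mem_singleton z)) j

/-- groups of type (4) are simple -/
theorem type4_main (h1 : S_CYZ) (h2 : S_CEN) (G : Type) [Group G] [Group.FG G] [Infinite G]
    (h : Type4 G) : Type3 G ∧ IsSimpleGroup G := by
  obtain ⟨p, hp, h⟩ := h
  have hprop : ∀ H : Subgroup G, H ≠ ⊤ → IsCyclic H := by
    intro H hH
    by_cases hb : H = ⊥
    · rw [hb]
      infer_instance
    · exact (h H hb hH).1
  have hsmall : ∀ H : Subgroup G, H ≠ ⊤ → Finite H := by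
    intro H hH
    by_cases hb : H = ⊥
    · rw [hb]
      infer_instance
    · exact Nat.finite_of_card_ne_zero (by rw [(h H hb hH).2]; exact hp.ne_zero)
  have h3 : Type3 G := by
    refine ⟨fun hc => ?_, hprop⟩
    obtain ⟨g, hg⟩ := hc.exists_generator
    have h0 : orderOf g = 0 := Infinite.orderOf_eq_zero_of_forall_mem_zpowers hg
    have hne : zpowers (g ^ 2) ≠ ⊤ := by
      intro ht
      have h4 : g ∈ zpowers (g ^ 2) := by
        rw [ht]
        exact mem_top g
      obtain ⟨j, hj⟩ := mem_zpowers_iff.1 h4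
      have h5 : g ^ (2 * j - 1) = 1 := by
        rw [zpow_sub, zpow_mul, zpow_one]
        have : (g ^ (2 : ℤ)) ^ j = g := by exact_mod_cast hj
        rw [this, mul_inv_cancel]
      have h6 := orderOf_dvd_iff_zpow_eq_one.2 h5
      rw [h0] at h6
      have h7 : 2 * j - 1 = 0 := by
        have := h6
        simpa using this
      omega
    have hf := hsmall _ hne
    have h8 : orderOf (g ^ 2) ≠ 0 := by
      rw [← Nat.card_zpowers]
      exact Nat.card_pos.ne'
    rw [orderOf_eq_zero_iff.2] at h8
    · exact h8 rfl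
    · rw [← orderOf_eq_zero_iff, orderOf_eq_zero_iff']
      intro n hn h9
      rw [← pow_mul] at h9
      exact (orderOf_eq_zero_iff'.1 h0) (2 * n) (by omega) h9
  refine ⟨h3, ?_⟩
  obtain ⟨hN, hZc, hs, hinf, hq, -⟩ := type3_main h1 h2 G h3
  have hsurj := QuotientGroup.mk'_surjective (center G)
  have hZ : center G = ⊥ := by
    by_contra hb
    have hZt : center G ≠ ⊤ := by
      intro ht
      have h4 : Subsingleton (G ⧸ center G) := by
        rw [ht]
        exact QuotientGroup.subsingleton_quotient_top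
      exact not_finite (G ⧸ center G)
    have hZcard := (h _ hb hZt).2
    have key : ∀ L : Subgroup (G ⧸ center G), L ≠ ⊤ → L = ⊥ := by
      intro L hL
      have h5 : L.comap (QuotientGroup.mk' (center G)) ≠ ⊤ := by
        intro h'
        apply hL
        rw [← map_comap_eq_self_of_surjective hsurj L, h', map_top_of_surjective _ hsurj]
      have h6 : center G ≤ L.comap (QuotientGroup.mk' (center G)) := by
        intro x hx
        rw [mem_comap]
        have : QuotientGroup.mk' (center G) x = 1 := (QuotientGroup.eq_one_iff x).2 hx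
        rw [this]
        exact L.one_mem
      have h7 : L.comap (QuotientGroup.mk' (center G)) ≠ ⊥ := fun h' => hb (eq_bot_iff.2 (h' ▸ h6))
      have h8 := (h _ h7 h5).2
      have h9 := hsmall _ h5
      have h10 : center G = L.comap (QuotientGroup.mk' (center G)) :=
        eq_of_le_of_card_ge h6 (by rw [h8, hZcard])
      rw [← map_comap_eq_self_of_surjective hsurj L, ← h10, eq_bot_iff, map_le_iff_le_comap]
      intro x hx
      rw [mem_comap, mem_bot]
      exact (QuotientGroup.eq_one_iff x).2 hx
    obtain ⟨x, hx⟩ := exists_ne (1 : G ⧸ center G)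
    have h11 : zpowers x = ⊤ := by
      by_contra hc
      have := key _ hc
      rw [zpowers_eq_bot] at this
      exact hx this
    exact hq.1 ⟨x, fun y => by
      have h12 : y ∈ zpowers x := by
        rw [h11]
        exact mem_top y
      exact h12⟩
  have hbot : ∀ L : Subgroup G, L.Normal → L = ⊥ ∨ L = ⊤ := by
    intro L hL
    by_cases ht : L = ⊤
    · exact Or.inr ht
    · left
      have := hN L hL ht
      rwa [hZ, le_bot_iff] at this
  exact ⟨fun L hL => hbot L hL⟩

end Pool.Agent.L0h77.MO
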