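import Pool.Agent.L0h77.MO.Six
import Pool.Agent.L0h77.MO.Three
import Pool.Agent.L0h77.MO.Stm2

/-! MP_65b575_al, project MO: main theorems -/

set_option autoImplicit false
set_option maxHeartbeats 400000

namespace Pool.Agent.L0h77.MO

open Subgroup

/-- (2) There is `n ≥ 1` with `g ^ n = 1` for all `g`. -/
def Type2 (G : Type) [Group G] : Prop := ∃ n : ℕ, 1 ≤ n ∧ ∀ g : G, g ^ n = 1

/-- (5) `G` is complete. -/
def Type5 (G : Type) [Group G] : Prop := ∀ g : G, ∀ m : ℕ, 1 ≤ m → ∃ h : G, h ^ m = g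

/-- (6) There are only finitely many conjugacy classes. -/
def Type6 (G : Type) [Group G] : Prop := Finite (ConjClasses G)

/-- `g` has infinite order -/
def InfOrd {G : Type} [Group G] (g : G) : Prop := ∀ n : ℕ, 0 < n → g ^ n ≠ 1

section
variable {G : Type} [Group G]

theorem InfOrd.pow {g : G} (hg : InfOrd g) {n : ℕ} (hn : 0 < n) : InfOrd (g ^ n) := by
  intro k hk
  rw [← pow_mul]
  exact hg _ (Nat.mul_pos hn hk)

theorem six_rat (hR : S_RAT) (hG : Finite (ConjClasses G)) (g : G) (hg : InfOrd g) :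
    ∃ n : ℕ, 0 < n ∧ ∃ f : Multiplicative ℚ →* G, Function.Injective f ∧
      f (Multiplicative.ofAdd 1) = g ^ n := by
  obtain ⟨n, hn, h⟩ := power_conj hG g
  refine ⟨n, hn, hR G (fun b => IsConj (g ^ n) b) (fun b hb m hm => ?_) (g ^ n) (IsConj.refl _)
    (hg.pow hn)⟩
  obtain ⟨k, hk2, hmk, hk⟩ := h m hm
  obtain ⟨s, hs⟩ := isConj_iff.1 hk
  obtain ⟨c, hc⟩ := isConj_iff.1 hb
  refine ⟨(c * s⁻¹) * g ^ n * (c * s⁻¹)⁻¹, k, isConj_iff.2 ⟨c * s⁻¹, rfl⟩, by omega, hmk, ?_⟩
  rw [conj_pow, ← hs, ← hc]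
  group

theorem six_free (hF : S_FRM) (hG : Finite (ConjClasses G)) (g : G) (hg : InfOrd g) :
    ∃ x y : G, Function.Injective (FreeMonoid.lift ![x, y]) := by
  obtain ⟨n, hn, h⟩ := power_conj hG g
  obtain ⟨k, hk2, -, hk⟩ := h 1 one_pos
  obtain ⟨s, hs⟩ := isConj_iff.1 hk
  exact ⟨s, g ^ n * s, hF G (g ^ n) s k hk2 (hg.pow hn) hs⟩

theorem six_tors (hG : Finite (ConjClasses G)) (ht : ∀ g : G, ¬ InfOrd g) : Type2 G := by
  classical
  have h1 : ∀ c : ConjClasses G, ∃ n : ℕ, 0 < n ∧ ∀ g : G, ConjClasses.mk g = c → g ^ n = 1 := by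
    intro c
    obtain ⟨g, rfl⟩ := ConjClasses.mk_surjective c
    have h2 := ht g
    unfold InfOrd at h2
    push Not at h2
    obtain ⟨n, hn, h3⟩ := h2
    refine ⟨n, hn, fun x hx => ?_⟩
    rw [ConjClasses.mk_eq_mk_iff_isConj] at hx
    obtain ⟨c, hc⟩ := isConj_iff.1 hx.symm
    rw [← hc, conj_pow, h3]
    group
  choose n hn h using h1
  have := Fintype.ofFinite (ConjClasses G)
  refine ⟨∏ c, n c, Finset.prod_pos fun c _ => hn c, fun g => ?_⟩
  obtain ⟨k, hk⟩ := Finset.dvd_prod_of_mem n (Finset.mem_univ (ConjClasses.mk g))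
  rw [hk, pow_mul, h _ g rfl, one_pow]

theorem comm_finite (hG : Finite (ConjClasses G)) (hc : ∀ x y : G, x * y = y * x) : Finite G := by
  refine Finite.of_injective (ConjClasses.mk : G → ConjClasses G) fun x y h => ?_
  rw [ConjClasses.mk_eq_mk_iff_isConj] at h
  obtain ⟨c, hc'⟩ := isConj_iff.1 h
  rw [← hc', hc c x, mul_inv_cancel_right]

theorem three_six (hR : S_RAT) [Infinite G] (h3 : Type3 G) (hG : Finite (ConjClasses G)) :
    Type2 G := by
  refine six_tors hG fun g hg => ?_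
  obtain ⟨n, -, f, hf, -⟩ := six_rat hR hG g hg
  by_cases ht : f.range = ⊤
  · have hc : ∀ x y : G, x * y = y * x := by
      intro x y
      obtain ⟨p, rfl⟩ := (MonoidHom.range_eq_top.1 ht) x
      obtain ⟨q, rfl⟩ := (MonoidHom.range_eq_top.1 ht) y
      rw [← map_mul, ← map_mul, mul_comm]
    exact not_finite_iff_infinite.2 ‹Infinite G› (comm_finite hG hc)
  · obtain ⟨⟨x, q, hq⟩, hx⟩ := (h3.2 _ ht).exists_generator
    have key : ∀ p : ℚ, ∃ j : ℤ, p = j * q.toAdd := by
      intro p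
      obtain ⟨j, hj⟩ := mem_zpowers_iff.1 (hx ⟨f (Multiplicative.ofAdd p), _, rfl⟩)
      have hj' : x ^ j = f (Multiplicative.ofAdd p) := congrArg Subtype.val hj
      rw [← hq, ← map_zpow] at hj'
      have h4 := hf hj'
      refine ⟨j, ?_⟩
      have h5 := congrArg Multiplicative.toAdd h4
      rw [toAdd_zpow, toAdd_ofAdd] at h5
      rw [← h5]
      simp
    obtain ⟨j, hj⟩ := key (q.toAdd / 2)
    obtain ⟨i, hi⟩ := key 1
    have hq0 : q.toAdd ≠ 0 := by
      intro h0
      rw [h0, mul_zero] at hi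
      exact one_ne_zero hi
    have h6 : (1 / 2 : ℚ) = j := by
      field_simp at hj
      have h7 : (1 : ℚ) = j * 2 := by
        have := hj
        nlinarith [this]
      linarith
    have h8 : (1 : ℚ) = 2 * j := by linarith
    have h9 : (1 : ℤ) = 2 * j := by exact_mod_cast h8
    omega

theorem six_seven (hF : S_FRM) (hW : S_GRW) (h7 : Type7 G) (hG : Finite (ConjClasses G)) :
    Type2 G := by
  refine six_tors hG fun g hg => ?_
  have hinf : Infinite G := by
    refine Infinite.of_injective (fun n : ℕ => g ^ n) fun m n hmn => ?_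
    have hmn' : g ^ m = g ^ n := hmn
    rcases lt_trichotomy m n with h | h | h
    · exfalso
      apply hg (n - m) (by omega)
      have h1 : g ^ m * g ^ (n - m) = g ^ m * 1 := by
        rw [← pow_add, mul_one, Nat.add_sub_cancel' h.le, hmn']
      exact mul_left_cancel h1
    · exact h
    · exfalso
      apply hg (m - n) (by omega)
      have h1 : g ^ n * g ^ (m - n) = g ^ n * 1 := by
        rw [← pow_add, mul_one, Nat.add_sub_cancel' h.le, hmn']
      exact mul_left_cancel h1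
  obtain ⟨x, y, hxy⟩ := six_free hF hG g hg
  obtain ⟨S, hS, -, h3⟩ := h7
  obtain ⟨c, hc, hr⟩ := hW G S hS x y hxy
  obtain ⟨r, hr'⟩ := h3 c hc
  exact absurd (hr r) (not_le.2 hr')

theorem two_classes (h2 : Nat.card (ConjClasses G) = 2) : Type2 G ∨ Type5 G := by
  classical
  have hG : Finite (ConjClasses G) := Nat.finite_of_card_ne_zero (by rw [h2]; norm_num)
  by_cases ht : ∀ g : G, ¬ InfOrd g
  · exact Or.inl (six_tors hG ht)
  · right
    push Not at ht
    obtain ⟨g, hg⟩ := ht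
    have key : ∀ x y : G, x ≠ 1 → y ≠ 1 → IsConj x y := by
      intro x y hx hy
      by_contra hc
      have e1 : ConjClasses.mk x ≠ ConjClasses.mk 1 := by
        rw [Ne, ConjClasses.mk_eq_mk_iff_isConj]
        exact fun h => hx (isConj_one_left.1 h)
      have e2 : ConjClasses.mk y ≠ ConjClasses.mk 1 := by
        rw [Ne, ConjClasses.mk_eq_mk_iff_isConj]
        exact fun h => hy (isConj_one_left.1 h)
      have e3 : ConjClasses.mk x ≠ ConjClasses.mk y := by
        rw [Ne, ConjClasses.mk_eq_mk_iff_isConj]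
        exact hc
      have h3 : ({ConjClasses.mk x, ConjClasses.mk y, ConjClasses.mk 1} :
          Finset (ConjClasses G)).card ≤ Nat.card (ConjClasses G) := by
        have := Fintype.ofFinite (ConjClasses G)
        rw [Nat.card_eq_fintype_card]
        exact Finset.card_le_univ _
      rw [Finset.card_eq_three.2 ⟨_, _, _, e3, e1, e2, rfl⟩, h2] at h3
      omega
    have hinf : ∀ x : G, x ≠ 1 → InfOrd x := by
      intro x hx n hn h1
      have hg1 : g ≠ 1 := fun h => hg 1 one_pos (by rw [h, one_pow])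
      obtain ⟨c, hc⟩ := isConj_iff.1 (key x g hx hg1)
      apply hg n hn
      rw [← hc, conj_pow, h1]
      group
    intro x m hm
    by_cases hx : x = 1
    · exact ⟨1, by rw [hx, one_pow]⟩
    · obtain ⟨c, hc⟩ := isConj_iff.1 (key (x ^ m) x (hinf x hx m hm) hx)
      exact ⟨c * x * c⁻¹, by rw [conj_pow, hc]⟩

theorem five_rat (hR : S_RAT) (h5 : Type5 G) (g : G) (hg : InfOrd g) :
    ∃ f : Multiplicative ℚ →* G, Function.Injective f ∧ f (Multiplicative.ofAdd 1) = g := by
  refine hR G (fun _ => True) (fun b _ m hm => ?_) g trivial hg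
  obtain ⟨h, hh⟩ := h5 b m hm
  exact ⟨h, m, trivial, hm, dvd_rfl, hh⟩

end

end Pool.Agent.L0h77.MO
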