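import Pool.Agent.L0h77.MO.Five

/-! MP_65b575_al, project MO: maximal normal subgroups; simple quotients of complete groups -/

set_option autoImplicit false
set_option maxHeartbeats 400000

namespace Pool.Agent.L0h77.MO

open Subgroup

section
variable {G : Type} [Group G]

theorem exists_max_normal [Group.FG G] [Nontrivial G] : ∃ M : Subgroup G, M.Normal ∧ M ≠ ⊤ ∧
    ∀ L : Subgroup G, L.Normal → M ≤ L → L = M ∨ L = ⊤ := by
  classical
  obtain ⟨S, hS⟩ := Group.fg_def.1 ‹Group.FG G›
  have h := zorn_le_nonempty₀ {N : Subgroup G | N.Normal ∧ N ≠ ⊤} (fun c hc hchain y hy => by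
    have hdir : DirectedOn (· ≤ ·) c := hchain.directedOn
    have hne : c.Nonempty := ⟨y, hy⟩
    refine ⟨sSup c, ⟨⟨fun x hx g => ?_⟩, fun htop => ?_⟩, fun N hN => le_sSup hN⟩
    · obtain ⟨N, hN, hxN⟩ := (mem_sSup_of_directedOn hne hdir).1 hx
      exact (mem_sSup_of_directedOn hne hdir).2 ⟨N, hN, (hc hN).1.conj_mem x hxN g⟩
    · have h1 : ∀ T : Finset G, ∃ N ∈ c, (T : Set G) ⊆ N := by
        intro T
        induction T using Finset.induction_on with
        | empty => exact ⟨y, hy, by simp⟩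
        | insert x T _ ih =>
          obtain ⟨N, hN, hT⟩ := ih
          have hx : x ∈ sSup c := by
            rw [htop]
            exact mem_top x
          obtain ⟨N', hN', hx'⟩ := (mem_sSup_of_directedOn hne hdir).1 hx
          obtain ⟨K, hK, h2, h3⟩ := hdir N hN N' hN'
          refine ⟨K, hK, ?_⟩
          rw [Finset.coe_insert, Set.insert_subset_iff]
          exact ⟨h3 hx', fun z hz => h2 (hT hz)⟩
      obtain ⟨N, hN, hSN⟩ := h1 S
      apply (hc hN).2
      rw [eq_top_iff, ← hS, closure_le]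
      exact hSN) ⊥ ⟨normal_bot, bot_ne_top⟩
  obtain ⟨M, -, hM⟩ := h
  refine ⟨M, hM.prop.1, hM.prop.2, fun L hL hML => ?_⟩
  by_cases hLt : L = ⊤
  · exact Or.inr hLt
  · exact Or.inl (le_antisymm (hM.2 ⟨hL, hLt⟩ hML) hML)

theorem simple_of_max {M : Subgroup G} [M.Normal] (hMt : M ≠ ⊤)
    (hM : ∀ L : Subgroup G, L.Normal → M ≤ L → L = M ∨ L = ⊤) : IsSimpleGroup (G ⧸ M) := by
  have hsurj := QuotientGroup.mk'_surjective M
  have hnt : Nontrivial (G ⧸ M) := by
    by_contra hc
    rw [not_nontrivial_iff_subsingleton] at hc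
    apply hMt
    rw [eq_top_iff]
    intro x _
    exact (QuotientGroup.eq_one_iff x).1 (Subsingleton.elim _ _)
  refine ⟨fun L hL => ?_⟩
  have h3 : M ≤ L.comap (QuotientGroup.mk' M) := by
    intro x hx
    rw [mem_comap]
    have : QuotientGroup.mk' M x = 1 := (QuotientGroup.eq_one_iff x).2 hx
    rw [this]
    exact L.one_mem
  rcases hM _ (hL.comap (QuotientGroup.mk' M)) h3 with h | h
  · left
    rw [← map_comap_eq_self_of_surjective hsurj L, h, eq_bot_iff, map_le_iff_le_comap]
    intro x hx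
    rw [mem_comap, mem_bot]
    exact (QuotientGroup.eq_one_iff x).2 hx
  · right
    rw [← map_comap_eq_self_of_surjective hsurj L, h, map_top_of_surjective _ hsurj]

theorem five_quot (h5 : Type5 G) (M : Subgroup G) [M.Normal] : Type5 (G ⧸ M) := by
  intro g m hm
  obtain ⟨x, rfl⟩ := QuotientGroup.mk'_surjective M g
  obtain ⟨y, rfl⟩ := h5 x m hm
  exact ⟨QuotientGroup.mk' M y, (map_pow _ _ _).symm⟩

theorem five_infinite (h5 : Type5 G) [Nontrivial G] : Infinite G := by
  by_contra hc
  rw [not_infinite_iff_finite] at hc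
  obtain ⟨g, hg⟩ := exists_ne (1 : G)
  exact hg (five_two h5 ⟨Nat.card G, Nat.card_pos, fun g => pow_card_eq_one'⟩ g)

/-- a finitely generated infinite complete group has a simple infinite complete quotient -/
theorem five_simple [Group.FG G] [Nontrivial G] (h5 : Type5 G) : ∃ (M : Subgroup G) (_ : M.Normal),
    IsSimpleGroup (G ⧸ M) ∧ Infinite (G ⧸ M) ∧ Type5 (G ⧸ M) := by
  obtain ⟨M, hMn, hMt, hM⟩ := exists_max_normal (G := G)
  have hs := simple_of_max hMt hM
  have h5' := five_quot h5 M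
  have hnt : Nontrivial (G ⧸ M) := hs.toNontrivial
  exact ⟨M, hMn, hs, five_infinite h5', h5'⟩

end

end Pool.Agent.L0h77.MO
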