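import Mathlib

/-! MP_65b575_al, project MO: decision problems -/

set_option autoImplicit false
set_option maxHeartbeats 400000

namespace Pool.Agent.L0h77.MO

/-- words in `n` letters and their inverses -/
abbrev Wd (n : ℕ) : Type := List (Fin n × Bool)

/-- RE: for a finitely presented group the relation `v` is in the normal closure of `w` is recursively
enumerable. Sketch: `φ (mk v)` is in the normal closure of `φ (mk w)` iff `mk v` is a product of conjugates
of `(mk w) ^ ±1` and of the finitely many relators and their inverses; enumerate lists of triples
(conjugating word, index of the relator, sign) and compare by `FreeGroup.reduce` (computable), or search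
for a chain of elementary moves. -/
def S_RE : Prop := ∀ (n : ℕ) (G : Type) [Group G] (φ : FreeGroup (Fin n) →* G),
  Function.Surjective φ → φ.ker.IsFinitelyNormallyGenerated →
  REPred fun p : Wd n × Wd n =>
    φ (FreeGroup.mk p.2) ∈ Subgroup.normalClosure {φ (FreeGroup.mk p.1)}

/-- CJP (from `S_RE`): a finitely presented group with finitely many conjugacy classes has solvable
conjugacy problem. Sketch: let the words `r i` represent the classes; `{(v, w)}` with `v`, `w` conjugate is
recursively enumerable (search for a conjugator, word problem from `S_RE` with `p.1 = []`), and `v`, `w` are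
not conjugate iff for some `i ≠ j` `v` is conjugate to `r i` and `w` to `r j`. -/
def S_CJP : Prop := ∀ (n : ℕ) (G : Type) [Group G] (φ : FreeGroup (Fin n) →* G),
  Function.Surjective φ → φ.ker.IsFinitelyNormallyGenerated → Finite (ConjClasses G) →
  ComputablePred fun p : Wd n × Wd n => IsConj (φ (FreeGroup.mk p.1)) (φ (FreeGroup.mk p.2))

/-- KUZ (from `S_RE`; Kuznetsov): a finitely presented simple group has solvable word problem. Sketch: fix a
word `v` with nontrivial value; `w` is nontrivial iff `v` is in the normal closure of `w`. -/
def S_KUZ : Prop := ∀ (n : ℕ) (G : Type) [Group G] (φ : FreeGroup (Fin n) →* G),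
  Function.Surjective φ → φ.ker.IsFinitelyNormallyGenerated → IsSimpleGroup G →
  ComputablePred fun w : Wd n => φ (FreeGroup.mk w) = 1

end Pool.Agent.L0h77.MO
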