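import Pool.Agent.L0h81.MO.RE
import Pool.Agent.L0h77.MO.Stm3

/-! MP_65b575_al, project MO: closure properties of recursively enumerable predicates -/

set_option autoImplicit false
set_option maxHeartbeats 400000

namespace Pool.Agent.L0h77.MO

open Encodable

theorem re_comp {α β : Type} [Primcodable α] [Primcodable β] {p : β → Prop} (hp : REPred p)
    {f : α → β} (hf : Computable f) : REPred fun a => p (f a) :=
  Partrec.comp hp hf

theorem re_exists {α β : Type} [Primcodable α] [Primcodable β] {p : α × β → Prop}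
    (hp : REPred p) : REPred fun a => ∃ b, p (a, b) := by
  obtain ⟨c, hc⟩ := Nat.Partrec.Code.exists_code.1 hp
  have h1 : Primrec₂ (fun (a : α) (x : β × ℕ) =>
      (Nat.Partrec.Code.evaln x.2 c (encode (a, x.1))).isSome) := by
    have h2 : Primrec (fun y : α × (β × ℕ) => ((y.2.2, c), encode (y.1, y.2.1))) :=
      Primrec.pair (Primrec.pair (Primrec.snd.comp Primrec.snd) (Primrec.const c))
        (Primrec.encode.comp (Primrec.pair Primrec.fst (Primrec.fst.comp Primrec.snd)))
    exact Primrec.option_isSome.comp (Nat.Partrec.Code.primrec_evaln.comp h2)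
  refine (L0h81.MO.re_of_exists' _ h1).of_eq fun a => ?_
  have key : ∀ b : β, p (a, b) ↔ ∃ k, (Nat.Partrec.Code.evaln k c (encode (a, b))).isSome = true := by
    intro b
    have h2 : (c.eval (encode (a, b))).Dom ↔ p (a, b) := by
      rw [hc]
      simp [encodek, Part.assert]
    rw [← h2]
    constructor
    · intro h
      obtain ⟨k, hk⟩ := Nat.Partrec.Code.evaln_complete.1 (Part.get_mem h)
      exact ⟨k, Option.isSome_iff_exists.2 ⟨_, hk⟩⟩
    · rintro ⟨k, hk⟩
      obtain ⟨x, hx⟩ := Option.isSome_iff_exists.1 hk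
      exact Part.dom_iff_mem.2 ⟨x, Nat.Partrec.Code.evaln_complete.2 ⟨k, hx⟩⟩
  constructor
  · rintro ⟨⟨b, k⟩, h⟩
    exact ⟨b, (key b).2 ⟨k, h⟩⟩
  · rintro ⟨b, h⟩
    obtain ⟨k, hk⟩ := (key b).1 h
    exact ⟨(b, k), hk⟩

theorem re_and {α : Type} [Primcodable α] {p q : α → Prop} (hp : REPred p) (hq : REPred q) :
    REPred fun a => p a ∧ q a := by
  have h : Partrec fun a => (Part.assert (p a) fun _ => Part.some ()).bind
      fun _ => Part.assert (q a) fun _ => Part.some () :=
    Partrec.bind hp (Partrec.comp hq Computable.fst).to₂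
  refine Partrec.of_eq h fun a => Part.ext' ?_ fun _ _ => rfl
  simp [Part.assert]

theorem re_or {α : Type} [Primcodable α] {p q : α → Prop} (hp : REPred p) (hq : REPred q) :
    REPred fun a => p a ∨ q a := by
  have h : REPred fun x : α × Bool => bif x.2 then p x.1 else q x.1 := by
    have h1 : Partrec fun x : α × Bool => bif x.2 then (Part.assert (p x.1) fun _ => Part.some ())
        else (Part.assert (q x.1) fun _ => Part.some ()) :=
      Partrec.cond Computable.snd (Partrec.comp hp Computable.fst) (Partrec.comp hq Computable.fst)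
    refine Partrec.of_eq h1 fun x => ?_
    obtain ⟨a, b⟩ := x
    cases b <;> rfl
  refine (re_exists h).of_eq fun a => ?_
  constructor
  · rintro ⟨b, hb⟩
    cases b
    · exact Or.inr hb
    · exact Or.inl hb
  · rintro (h | h)
    · exact ⟨true, h⟩
    · exact ⟨false, h⟩

/-- the word problem is recursively enumerable -/
theorem wp_re (hRE : S_RE) (n : ℕ) (G : Type) [Group G] (φ : FreeGroup (Fin n) →* G)
    (hφ : Function.Surjective φ) (hf : φ.ker.IsFinitelyNormallyGenerated) :
    REPred fun w : Wd n => φ (FreeGroup.mk w) = 1 := by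
  have h := re_comp (hRE n G φ hφ hf) (f := fun w : Wd n => (([] : Wd n), w))
    (Computable.pair (Computable.const _) Computable.id)
  refine h.of_eq fun w => ?_
  have h1 : φ (FreeGroup.mk []) = 1 := by
    rw [← FreeGroup.one_eq_mk, map_one]
  show φ (FreeGroup.mk w) ∈ Subgroup.normalClosure {φ (FreeGroup.mk [])} ↔ _
  rw [h1]
  have h2 : Subgroup.normalClosure {(1 : G)} = ⊥ := by
    rw [eq_bot_iff]
    refine Subgroup.normalClosure_le_normal ?_
    rintro _ rfl
    exact Subgroup.one_mem _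
  rw [h2, Subgroup.mem_bot]

/-- the word `v ^ j` -/
def pw {n : ℕ} (v : Wd n) (j : ℕ) : Wd n := (List.range j).flatMap fun _ => v

theorem mk_pw {n : ℕ} (v : Wd n) (j : ℕ) : FreeGroup.mk (pw v j) = FreeGroup.mk v ^ j := by
  induction j with
  | zero => rw [pow_zero, FreeGroup.one_eq_mk]; rfl
  | succ j ih =>
    rw [pow_succ, ← ih, FreeGroup.mul_mk]
    unfold pw
    rw [List.range_succ, List.flatMap_append]
    simp

theorem primrec_pw (n : ℕ) : Primrec₂ (pw (n := n)) := by
  have h : Primrec fun x : Wd n × ℕ => (List.range x.2).flatMap fun _ => x.1 :=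
    Primrec.list_flatMap (Primrec.list_range.comp Primrec.snd) (Primrec.fst.comp Primrec.fst)
  exact h

/-- the word `v ^ j` or `v ^ (-j)` -/
def pz {n : ℕ} (v : Wd n) (x : ℕ × Bool) : Wd n :=
  bif x.2 then pw v x.1 else FreeGroup.invRev (pw v x.1)

theorem primrec_pz (n : ℕ) : Primrec₂ (pz (n := n)) := by
  have h1 : Primrec fun x : Wd n × (ℕ × Bool) => pw x.1 x.2.1 :=
    (primrec_pw n).comp Primrec.fst (Primrec.fst.comp Primrec.snd)
  have h : Primrec fun x : Wd n × (ℕ × Bool) =>
      bif x.2.2 then pw x.1 x.2.1 else FreeGroup.invRev (pw x.1 x.2.1) :=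
    Primrec.cond (Primrec.snd.comp Primrec.snd) h1 ((L0h81.MO.primrec_inv n).comp h1)
  exact h

/-- the integer `j` or `-j` -/
def iz (x : ℕ × Bool) : ℤ := bif x.2 then (x.1 : ℤ) else -(x.1 : ℤ)

theorem mk_pz {n : ℕ} (v : Wd n) (x : ℕ × Bool) : FreeGroup.mk (pz v x) = FreeGroup.mk v ^ iz x := by
  obtain ⟨j, b⟩ := x
  cases b
  · show FreeGroup.mk (FreeGroup.invRev (pw v j)) = FreeGroup.mk v ^ (-(j : ℤ))
    rw [← FreeGroup.inv_mk, mk_pw, zpow_neg, zpow_natCast]
  · show FreeGroup.mk (pw v j) = FreeGroup.mk v ^ (j : ℤ)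
    rw [mk_pw, zpow_natCast]

theorem iz_surj (t : ℤ) : ∃ x, iz x = t := by
  rcases le_total 0 t with h | h
  · refine ⟨(t.toNat, true), ?_⟩
    show ((t.toNat : ℕ) : ℤ) = t
    exact Int.toNat_of_nonneg h
  · refine ⟨((-t).toNat, false), ?_⟩
    show -(((-t).toNat : ℕ) : ℤ) = t
    rw [Int.toNat_of_nonneg (by omega)]
    ring

end Pool.Agent.L0h77.MO
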