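import Pool.Agent.L0h77.MO.Stm
import Pool.Agent.V11238.MG.FP

/-! MP_65b575_al, project MO: groups with finitely many conjugacy classes -/

set_option autoImplicit false
set_option maxHeartbeats 400000

namespace Pool.Agent.L0h77.MO

open Subgroup

section
variable {G : Type} [Group G]

theorem fin_normal (hG : Finite (ConjClasses G)) : Finite {N : Subgroup G // N.Normal} := by
  have h1 : Finite (Set (ConjClasses G)) := inferInstance
  refine Finite.of_injective (β := Set (ConjClasses G))
    (fun N => ConjClasses.mk '' (N.1 : Set G)) ?_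
  have key : ∀ N M : {N : Subgroup G // N.Normal},
      ConjClasses.mk '' (N.1 : Set G) = ConjClasses.mk '' (M.1 : Set G) → N.1 ≤ M.1 := by
    intro N M h g hg
    have h2 : ConjClasses.mk g ∈ ConjClasses.mk '' (M.1 : Set G) := h ▸ ⟨g, hg, rfl⟩
    obtain ⟨m, hm, hmg⟩ := h2
    rw [ConjClasses.mk_eq_mk_iff_isConj, isConj_iff] at hmg
    obtain ⟨c, rfl⟩ := hmg
    exact M.2.conj_mem m hm c
  intro N M h
  exact Subtype.ext (le_antisymm (key N M h) (key M N h.symm))

theorem fng_of (hG : Finite (ConjClasses G)) (N : Subgroup G) (hN : N.Normal) :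
    N.IsFinitelyNormallyGenerated := by
  have h0 : ∀ c : ConjClasses.mk '' (N : Set G), ∃ g ∈ N, ConjClasses.mk g = c.1 := fun c => by
    obtain ⟨g, hg, hc⟩ := c.2
    exact ⟨g, hg, hc⟩
  choose r hr hrc using h0
  refine ⟨Set.range r, Set.finite_range r, le_antisymm ?_ fun g hg => ?_⟩
  · refine normalClosure_le_normal ?_
    rintro _ ⟨c, rfl⟩
    exact hr c
  · have h1 := hrc ⟨ConjClasses.mk g, g, hg, rfl⟩
    rw [ConjClasses.mk_eq_mk_iff_isConj, isConj_iff] at h1
    obtain ⟨c, hc⟩ := h1
    rw [← hc]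
    exact normalClosure_normal.conj_mem _ (subset_normalClosure (Set.mem_range_self _)) c

theorem fin_quot (hG : Finite (ConjClasses G)) {H : Type} [Group H] (f : G →* H)
    (hf : Function.Surjective f) : Finite (ConjClasses H) :=
  Finite.of_surjective (ConjClasses.map f) (ConjClasses.map_surjective hf)

/-- the finite residual has finite index and no proper subgroup of finite index -/
theorem residual (hG : Finite (ConjClasses G)) : ∃ R : Subgroup G, R.Normal ∧ R.FiniteIndex ∧
    ∀ K : Subgroup R, K.FiniteIndex → K = ⊤ := by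
  have h0 := fin_normal hG
  set ι := {N : {N : Subgroup G // N.Normal} // N.1.FiniteIndex}
  set R : Subgroup G := ⨅ N : ι, N.1.1 with hR
  have hn : R.Normal := normal_iInf_normal fun N : ι => N.1.2
  have hf : R.FiniteIndex := finiteIndex_iInf fun N : ι => N.2
  refine ⟨R, hn, hf, fun K hK => ?_⟩
  have h1 : (K.map R.subtype).FiniteIndex := by
    refine ⟨?_⟩
    rw [index_map_subtype]
    exact mul_ne_zero hK.index_ne_zero hf.index_ne_zero
  have h2 : R ≤ (K.map R.subtype).normalCore :=
    iInf_le (fun N : ι => N.1.1) ⟨⟨(K.map R.subtype).normalCore, inferInstance⟩, inferInstance⟩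
  rw [eq_top_iff]
  intro x _
  have h3 := normalCore_le _ (h2 x.2)
  obtain ⟨y, hy, hyx⟩ := h3
  rwa [← Subtype.ext hyx]

/-- reduction to simple groups -/
theorem six_simple (hFIC : S_FIC) (hG : Finite (ConjClasses G)) [Infinite G] :
    ∃ (R : Subgroup G) (M : Subgroup R) (_ : M.Normal), R.Normal ∧ R.FiniteIndex ∧
      IsSimpleGroup (R ⧸ M) ∧ Infinite (R ⧸ M) ∧ Finite (ConjClasses (R ⧸ M)) ∧
      (Group.IsFinitelyPresented G → Group.IsFinitelyPresented (R ⧸ M)) := by
  obtain ⟨R, hn, hf, hR⟩ := residual hG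
  have hRc := hFIC G hG R hf
  have hRi : Infinite R := by
    by_contra h
    rw [not_infinite_iff_finite] at h
    have h1 : Finite (G ⧸ R) := finite_quotient_of_finiteIndex
    exact not_finite_iff_infinite.2 ‹Infinite G› (Finite.of_equiv _ (R.groupEquivQuotientProdSubgroup).symm)
  have h0 := fin_normal hRc
  have hfin : {M : Subgroup R | M.Normal ∧ M ≠ ⊤}.Finite := by
    have h1 : {M : Subgroup R | M.Normal}.Finite := h0
    exact h1.subset fun M hM => hM.1
  obtain ⟨M, hM⟩ := hfin.exists_maximal ⟨⊥, normal_bot, bot_ne_top⟩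
  have hMn : M.Normal := hM.prop.1
  have hMt : M ≠ ⊤ := hM.prop.2
  have hfi : ¬ M.FiniteIndex := fun h => hMt (hR M h)
  have hinf : Infinite (R ⧸ M) := by
    by_contra h
    rw [not_infinite_iff_finite] at h
    exact hfi (finiteIndex_of_finite_quotient)
  refine ⟨R, M, hMn, hn, hf, ?_, hinf, fin_quot hRc _ (QuotientGroup.mk'_surjective M), fun hfp => ?_⟩
  · have hnt : Nontrivial (R ⧸ M) := inferInstance
    refine ⟨fun L hL => ?_⟩
    by_contra hcon
    rw [not_or] at hcon
    have h1 : (L.comap (QuotientGroup.mk' M)).Normal := hL.comap _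
    have h2 : L.comap (QuotientGroup.mk' M) ≠ ⊤ := by
      intro h
      apply hcon.2
      have h3 := map_comap_eq_self_of_surjective (QuotientGroup.mk'_surjective M) L
      rw [← h3, h, map_top_of_surjective _ (QuotientGroup.mk'_surjective M)]
    have h3 : M ≤ L.comap (QuotientGroup.mk' M) := by
      intro x hx
      rw [mem_comap]
      have : QuotientGroup.mk' M x = 1 := (QuotientGroup.eq_one_iff x).2 hx
      rw [this]
      exact L.one_mem
    have h4 := hM.eq_of_ge ⟨h1, h2⟩ h3
    apply hcon.1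
    rw [← map_comap_eq_self_of_surjective (QuotientGroup.mk'_surjective M) L, h4,
      eq_bot_iff, map_le_iff_le_comap]
    intro x hx
    rw [mem_comap, mem_bot]
    exact (QuotientGroup.eq_one_iff x).2 hx
  · have := hfp
    have h1 : Group.IsFinitelyPresented R := Pool.Agent.V11238.MG.fp_of_finiteIndex R
    exact Group.IsFinitelyPresented.quotient M (fng_of hRc M hMn)

/-- an element of infinite order has a power which is conjugate to powers with exponents divisible
by any number -/
theorem power_conj (hG : Finite (ConjClasses G)) (g : G) : ∃ n : ℕ, 0 < n ∧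
    ∀ m : ℕ, 0 < m → ∃ k : ℕ, 2 ≤ k ∧ m ∣ k ∧ IsConj (g ^ n) ((g ^ n) ^ k) := by
  obtain ⟨c, hc⟩ := Finite.exists_infinite_fiber (fun j : ℕ => ConjClasses.mk (g ^ (j.factorial)))
  have hc' : (((fun j : ℕ => ConjClasses.mk (g ^ (j.factorial))) ⁻¹' {c}) : Set ℕ).Infinite :=
    Set.infinite_coe_iff.1 hc
  obtain ⟨j0, hj0⟩ := hc'.nonempty
  refine ⟨j0.factorial, Nat.factorial_pos _, fun m hm => ?_⟩
  obtain ⟨j, hj, hlt⟩ := hc'.exists_gt (2 * m * j0.factorial)
  have hdvd : j0.factorial * (2 * m) ∣ j.factorial := by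
    refine Nat.dvd_factorial (by positivity) ?_
    rw [mul_comm]
    exact hlt.le
  obtain ⟨k', hk'⟩ := hdvd
  have hkpos : 0 < k' := by
    rcases Nat.eq_zero_or_pos k' with h | h
    · rw [h, mul_zero] at hk'
      exact absurd hk' (Nat.factorial_pos j).ne'
    · exact h
  refine ⟨2 * m * k', by nlinarith, ⟨2 * k', by ring⟩, ?_⟩
  rw [← pow_mul]
  have e1 : j0.factorial * (2 * m * k') = j.factorial := by rw [hk']; ring
  rw [e1, ← ConjClasses.mk_eq_mk_iff_isConj]
  have a1 : ConjClasses.mk (g ^ (j0.factorial)) = c := hj0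
  have a2 : ConjClasses.mk (g ^ (j.factorial)) = c := hj
  rw [a1, a2]

end

end Pool.Agent.L0h77.MO
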